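import Pool.Agent.H68.A.Pad
import Pool.Agent.H68.L.R_pool_sql_team_seeded_b0a926ef.R413.TI.Sym
import Pool.Agent.H68.L.R_pool_sql_team_seeded_b0a926ef.R413.TI.Imc

/-!
# The classes of the problem
-/

set_option autoImplicit false

namespace Pool.Agent.H68.A

open Pool.Agent.R413.TI

theorem Sol_iff_W {K : Type} [Field K] [CharZero K] {a b z : ℤ} (hz : z ≠ 0) (h : z ∣ b) :
    Sol K a z (b / z) ↔ W K (a : K) (b : K) (z : K) := by
  have e : ((b / z : ℤ) : K) = (b : K) / (z : K) := by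
    rw [Int.cast_div h (by exact_mod_cast hz)]
  unfold Sol W
  rw [e]

/-- the class is a local one everywhere -/
def Ew (a b z : ℤ) : Prop := W ℝ (a : ℝ) (b : ℝ) (z : ℝ) ∧
  ∀ (p : ℕ) [Fact p.Prime], W ℚ_[p] (a : ℚ_[p]) (b : ℚ_[p]) (z : ℚ_[p])

/-- a squarefree number whose prime factors divide `b` divides `b` -/
theorem dvd_of_primes {z b : ℤ} (hz : Squarefree z)
    (h : ∀ p : ℕ, p.Prime → (p : ℤ) ∣ z → (p : ℤ) ∣ b) : z ∣ b := by
  rw [← Int.natAbs_dvd_natAbs]
  have h1 : Squarefree z.natAbs := Int.squarefree_natAbs.2 hz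
  rw [← Nat.prod_primeFactors_of_squarefree h1]
  refine Finset.prod_primes_dvd _ (fun p hp => (Nat.prime_of_mem_primeFactors hp).prime)
    (fun p hp => ?_)
  have h2 := Nat.dvd_of_mem_primeFactors hp
  exact Int.natCast_dvd.1 (h p (Nat.prime_of_mem_primeFactors hp) (Int.natCast_dvd.2 h2))

theorem CL_iff {a b z : ℤ} (hb : b ≠ 0) : z ∈ CL a b ↔ Squarefree z ∧ Ew a b z := by
  constructor
  · rintro ⟨h1, h2, h3, h4⟩
    exact ⟨h1, (Sol_iff_W h1.ne_zero h2).1 h3, fun p _ => (Sol_iff_W h1.ne_zero h2).1 (h4 p)⟩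
  · rintro ⟨h1, h3, h4⟩
    have h2 : z ∣ b := by
      refine dvd_of_primes h1 (fun p hp hpz => ?_)
      have := Fact.mk hp
      exact dvd_of_W hpz h1 hb (h4 p)
    exact ⟨h1, h2, (Sol_iff_W h1.ne_zero h2).2 h3, fun p _ => (Sol_iff_W h1.ne_zero h2).2 (h4 p)⟩

theorem Ew_one {a b : ℤ} (hb : b ≠ 0) : Ew a b 1 := by
  constructor
  · have := W_one (K := ℝ) (a := a) (b := b) (by exact_mod_cast hb)
    simpa using this
  · intro p _
    have := W_one (K := ℚ_[p]) (a := a) (b := b) (by exact_mod_cast hb)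
    simpa using this

theorem Ew_mul {a b z z' : ℤ} (hb : b ≠ 0) (hz : z ≠ 0) (hz' : z' ≠ 0) (h : Ew a b z)
    (h' : Ew a b z') : Ew a b (z * z') := by
  constructor
  · have := W_mul (K := ℝ) (by exact_mod_cast hb) (by exact_mod_cast hz) (by exact_mod_cast hz')
      h.1 h'.1
    push_cast
    exact this
  · intro p _
    have := W_mul (K := ℚ_[p]) (by exact_mod_cast hb) (by exact_mod_cast hz)
      (by exact_mod_cast hz') (h.2 p) (h'.2 p)
    push_cast
    exact this

theorem Ew_congr {a b z z' : ℤ} (hb : b ≠ 0) (hz : z ≠ 0) (hz' : z' ≠ 0) (hs : IsSquare (z * z'))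
    (h : Ew a b z) : Ew a b z' := by
  obtain ⟨t, ht⟩ := hs
  constructor
  · refine W_of_isSquare_mul (K := ℝ) (by exact_mod_cast hb) (by exact_mod_cast hz)
      (by exact_mod_cast hz') ⟨t, ?_⟩ h.1
    exact_mod_cast ht
  · intro p _
    refine W_of_isSquare_mul (K := ℚ_[p]) (by exact_mod_cast hb) (by exact_mod_cast hz)
      (by exact_mod_cast hz') ⟨t, ?_⟩ (h.2 p)
    exact_mod_cast ht

theorem CL_finite (a : ℤ) {b : ℤ} (hb : b ≠ 0) : (CL a b).Finite := by
  refine ((Finset.finite_toSet (Finset.Icc (-|b|) |b|))).subset ?_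
  rintro z ⟨h1, h2, -⟩
  have := Int.le_of_dvd (abs_pos.2 hb) ((dvd_abs z b).2 h2)
  have h3 := Int.le_of_dvd (abs_pos.2 hb) ((dvd_abs (-z) b).2 ((neg_dvd).2 h2))
  simp only [Finset.coe_Icc, Set.mem_Icc]
  constructor <;> linarith

/-- two squarefree numbers with a square product are equal -/
theorem eq_of_sq_mul {z z' : ℤ} (h1 : Squarefree z) (h2 : Squarefree z')
    (h : IsSquare (z * z')) : z = z' := by
  have hd : ∀ {x y : ℤ}, Squarefree x → IsSquare (x * y) → x ∣ y := by
    intro x y hx hxy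
    obtain ⟨t, ht⟩ := hxy
    have h3 : x ∣ t := by
      refine (hx.dvd_pow_iff_dvd two_ne_zero).1 ⟨y, ?_⟩
      rw [pow_two, ← ht]
    obtain ⟨s, rfl⟩ := h3
    refine ⟨s * s, ?_⟩
    apply mul_left_cancel₀ hx.ne_zero
    linear_combination ht
  have d1 := hd h1 h
  have d2 := hd h2 (by rwa [mul_comm])
  rcases Int.natAbs_eq_natAbs_iff.1 (Nat.dvd_antisymm (Int.natAbs_dvd_natAbs.2 d1)
    (Int.natAbs_dvd_natAbs.2 d2)) with h3 | h3
  · exact h3
  · exfalso
    obtain ⟨t, ht⟩ := h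
    have h4 : z' ≠ 0 := h2.ne_zero
    have h5 : 0 < z' * z' := mul_self_pos.2 h4
    rw [h3] at ht
    nlinarith [mul_self_nonneg t]

/-- the number of the classes is a power of 2 -/
theorem CL_pow (a : ℤ) {b : ℤ} (hb : b ≠ 0) : ∃ f : ℕ, (CL a b).ncard = 2 ^ f := by
  classical
  -- the group
  let H : Subgroup ℚˣ :=
    { carrier := {x | W ℝ (a : ℝ) (b : ℝ) (((x : ℚ) : ℝ)) ∧
        ∀ (p : ℕ) [Fact p.Prime], W ℚ_[p] (a : ℚ_[p]) (b : ℚ_[p]) (((x : ℚ) : ℚ_[p]))}
      mul_mem' := by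
        rintro x y ⟨hx1, hx2⟩ ⟨hy1, hy2⟩
        have hx := x.ne_zero
        have hy := y.ne_zero
        constructor
        · have := W_mul (K := ℝ) (by exact_mod_cast hb) (by exact_mod_cast hx)
            (by exact_mod_cast hy) hx1 hy1
          push_cast
          exact this
        · intro p _
          have := W_mul (K := ℚ_[p]) (by exact_mod_cast hb) (by exact_mod_cast hx)
            (by exact_mod_cast hy) (hx2 p) (hy2 p)
          push_cast
          exact this
      one_mem' := by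
        constructor
        · simpa using W_one (K := ℝ) (a := a) (b := b) (by exact_mod_cast hb)
        · intro p _
          simpa using W_one (K := ℚ_[p]) (a := a) (b := b) (by exact_mod_cast hb)
      inv_mem' := by
        rintro x ⟨hx1, hx2⟩
        have hx := x.ne_zero
        constructor
        · have hx' : ((x : ℚ) : ℝ) ≠ 0 := by exact_mod_cast hx
          refine W_of_isSquare_mul (K := ℝ) (by exact_mod_cast hb) hx' (by simpa using hx')
            ⟨1, ?_⟩ hx1
          push_cast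
          field_simp
        · intro p _
          have hx' : ((x : ℚ) : ℚ_[p]) ≠ 0 := by exact_mod_cast hx
          refine W_of_isSquare_mul (K := ℚ_[p]) (by exact_mod_cast hb) hx' (by simpa using hx')
            ⟨1, ?_⟩ (hx2 p)
          push_cast
          field_simp }
  let N : Subgroup H := ((powMonoidHom 2 : ℚˣ →* ℚˣ).range).subgroupOf H
  have memH : ∀ z : ℤ, z ∈ CL a b → ∃ h : (z : ℚ) ≠ 0, Units.mk0 (z : ℚ) h ∈ H := by
    intro z hz
    obtain ⟨h1, h2⟩ := (CL_iff hb).1 hz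
    refine ⟨by exact_mod_cast h1.ne_zero, ?_, ?_⟩
    · simpa using h2.1
    · intro p _
      simpa using h2.2 p
  choose hne hmem using memH
  let f : CL a b → H ⧸ N := fun z => QuotientGroup.mk (⟨Units.mk0 (z.1 : ℚ) (hne z.1 z.2), hmem z.1 z.2⟩ : H)
  have hf : Function.Bijective f := by
    constructor
    · rintro ⟨z, hz⟩ ⟨z', hz'⟩ h
      have h1 := QuotientGroup.eq.1 h
      obtain ⟨t, ht⟩ := Subgroup.mem_subgroupOf.1 h1
      have h2 : (t : ℚ) ^ 2 = (z : ℚ)⁻¹ * z' := by
        have := congrArg (fun x : ℚˣ => (x : ℚ)) ht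
        simpa using this
      have hz0 : (z : ℚ) ≠ 0 := hne z hz
      have h3 : IsSquare ((z * z' : ℤ) : ℚ) := by
        refine ⟨z * (t : ℚ), ?_⟩
        push_cast
        have h4 : (z' : ℚ) = z * (t : ℚ) ^ 2 := by
          rw [h2]
          field_simp
        rw [h4]
        ring
      have h5 : IsSquare (z * z') := Rat.isSquare_intCast_iff.1 h3
      exact Subtype.ext (eq_of_sq_mul ((CL_iff hb).1 hz).1 ((CL_iff hb).1 hz').1 h5)
    · intro q
      obtain ⟨⟨x, hx⟩, rfl⟩ := QuotientGroup.mk_surjective q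
      have hx0 : (x : ℚ) ≠ 0 := x.ne_zero
      have hn : (x : ℚ).num * (x : ℚ).den ≠ 0 :=
        mul_ne_zero (Rat.num_ne_zero.2 hx0) (by exact_mod_cast (x : ℚ).den_ne_zero)
      obtain ⟨z, t, hz, ht, hzt⟩ := ImcP.sqfree_part hn
      have hz0 : (z : ℚ) ≠ 0 := by exact_mod_cast hz.ne_zero
      have ht0 : (t : ℚ) ≠ 0 := by exact_mod_cast ht
      have hd0 : (((x : ℚ).den : ℚ)) ≠ 0 := by exact_mod_cast (x : ℚ).den_ne_zero
      have e1 : (x : ℚ) = z * ((t : ℚ) / (x : ℚ).den) ^ 2 := by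
        have h3 : ((x : ℚ).num : ℚ) * ((x : ℚ).den : ℚ) = z * t ^ 2 := by exact_mod_cast hzt
        have h4 := Rat.num_div_den (x : ℚ)
        field_simp
        rw [← h3]
        nth_rewrite 1 [← h4]
        field_simp
      obtain ⟨u, hu⟩ : ∃ u : ℚ, u = (t : ℚ) / (x : ℚ).den := ⟨_, rfl⟩
      have hu0 : u ≠ 0 := by rw [hu]; exact div_ne_zero ht0 hd0
      rw [← hu] at e1
      have hzc : z ∈ CL a b := by
        refine (CL_iff hb).2 ⟨hz, ?_, ?_⟩
        · have h1 := hx.1
          rw [e1] at h1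
          push_cast at h1
          exact (W_mul_sq (K := ℝ) (by exact_mod_cast hb) (by exact_mod_cast hz0)
            (by exact_mod_cast hu0)).1 h1
        · intro p _
          have h1 := hx.2 p
          rw [e1] at h1
          push_cast at h1
          exact (W_mul_sq (K := ℚ_[p]) (by exact_mod_cast hb) (by exact_mod_cast hz0)
            (by exact_mod_cast hu0)).1 h1
      refine ⟨⟨z, hzc⟩, ?_⟩
      apply QuotientGroup.eq.2
      refine Subgroup.mem_subgroupOf.2 ⟨Units.mk0 u hu0, ?_⟩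
      apply Units.ext
      simp [e1]
      field_simp
  have hcard : (CL a b).ncard = Nat.card (H ⧸ N) := by
    rw [← Nat.card_coe_set_eq]
    exact Nat.card_eq_of_bijective f hf
  have hfin : Finite (H ⧸ N) := by
    have : Finite (CL a b) := (CL_finite a hb).to_subtype
    exact Finite.of_surjective f hf.2
  have hp : IsPGroup 2 (H ⧸ N) := by
    intro g
    refine ⟨1, ?_⟩
    obtain ⟨x, rfl⟩ := QuotientGroup.mk_surjective g
    rw [pow_one, ← QuotientGroup.mk_pow, QuotientGroup.eq_one_iff]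
    exact Subgroup.mem_subgroupOf.2 ⟨x.1, rfl⟩
  obtain ⟨n, hn⟩ := IsPGroup.iff_card.1 hp
  exact ⟨n, by rw [hcard, hn]⟩

end Pool.Agent.H68.A
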