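import Mathlib

/-!
# Additive residue symbols
-/

set_option autoImplicit false

namespace Pool.Agent.H68.A

open Classical in
/-- the additive residue symbol: `0` for the squares modulo `p`, `1` for the other classes -/
noncomputable def nr (p : ℕ) (n : ℤ) : ZMod 2 := if IsSquare (n : ZMod p) then 0 else 1

theorem nr_eq_zero {p : ℕ} {n : ℤ} : nr p n = 0 ↔ IsSquare (n : ZMod p) := by
  unfold nr
  split_ifs with h
  · simp [h]
  · simp [h]

theorem nr_mul {p : ℕ} [hp : Fact p.Prime] {m n : ℤ} (hm : ¬ (p : ℤ) ∣ m) (hn : ¬ (p : ℤ) ∣ n) :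
    nr p (m * n) = nr p m + nr p n := by
  have hm0 : (m : ZMod p) ≠ 0 := fun h => hm ((ZMod.intCast_zmod_eq_zero_iff_dvd m p).1 h)
  have hn0 : (n : ZMod p) ≠ 0 := fun h => hn ((ZMod.intCast_zmod_eq_zero_iff_dvd n p).1 h)
  have hmn0 : (m : ZMod p) * (n : ZMod p) ≠ 0 := mul_ne_zero hm0 hn0
  have key : IsSquare (((m * n : ℤ)) : ZMod p) ↔
      (IsSquare (m : ZMod p) ↔ IsSquare (n : ZMod p)) := by
    push_cast
    rw [← quadraticChar_one_iff_isSquare hmn0, ← quadraticChar_one_iff_isSquare hm0,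
      ← quadraticChar_one_iff_isSquare hn0, map_mul]
    rcases quadraticChar_dichotomy hm0 with h1 | h1 <;>
      rcases quadraticChar_dichotomy hn0 with h2 | h2 <;> rw [h1, h2] <;> decide
  have e : (1 : ZMod 2) + 1 = 0 := by decide
  unfold nr
  by_cases h1 : IsSquare (m : ZMod p) <;> by_cases h2 : IsSquare (n : ZMod p)
  · rw [if_pos h1, if_pos h2, if_pos (key.2 (by tauto)), add_zero]
  · rw [if_pos h1, if_neg h2, if_neg (fun h => h2 ((key.1 h).1 h1)), zero_add]
  · rw [if_neg h1, if_pos h2, if_neg (fun h => h1 ((key.1 h).2 h2)), add_zero]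
  · rw [if_neg h1, if_neg h2, if_pos (key.2 (by tauto)), e]

theorem nr_one {p : ℕ} : nr p 1 = 0 := nr_eq_zero.2 ⟨1, by push_cast; ring⟩

theorem nr_prod {p : ℕ} [hp : Fact p.Prime] (V : Finset ℕ) (h : ∀ r ∈ V, r.Prime ∧ r ≠ p) :
    ¬ (p : ℤ) ∣ ∏ r ∈ V, (r : ℤ) ∧ nr p (∏ r ∈ V, (r : ℤ)) = ∑ r ∈ V, nr p (r : ℤ) := by
  have hpi : Prime (p : ℤ) := Nat.prime_iff_prime_int.1 hp.out
  classical
  induction V using Finset.induction_on with
  | empty =>
    refine ⟨fun h => hpi.not_isUnit (isUnit_of_dvd_one (by simpa using h)), ?_⟩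
    simp [nr_one]
  | insert r V hr ih =>
    obtain ⟨i1, i2⟩ := ih (fun s hs => h s (Finset.mem_insert_of_mem hs))
    obtain ⟨h1, h2⟩ := h r (Finset.mem_insert_self r V)
    have h3 : ¬ (p : ℤ) ∣ (r : ℤ) := by
      intro h4
      rw [Int.natCast_dvd_natCast] at h4
      exact h2 ((Nat.prime_dvd_prime_iff_eq hp.out h1).1 h4).symm
    rw [Finset.prod_insert hr, Finset.sum_insert hr]
    refine ⟨fun h => (hpi.dvd_or_dvd h).elim h3 i1, ?_⟩
    rw [nr_mul h3 i1, i2]

/-- a number whose prime factors are squares modulo `p` is a square modulo `p` -/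
theorem sq_of_primes {p : ℕ} (n : ℕ) (h : ∀ l : ℕ, l.Prime → l ∣ n → IsSquare (l : ZMod p)) :
    IsSquare (n : ZMod p) := by
  induction n using induction_on_primes with
  | zero => exact ⟨0, by simp⟩
  | one => exact ⟨1, by simp⟩
  | prime_mul q m hq ih =>
    push_cast
    exact (h q hq (dvd_mul_right _ _)).mul (ih (fun l hl hlm => h l hl (hlm.mul_left _)))

theorem sq_of_primes_int {p : ℕ} (z : ℤ) (hm : IsSquare (-1 : ZMod p))
    (h : ∀ l : ℕ, l.Prime → (l : ℤ) ∣ z → IsSquare (l : ZMod p)) : IsSquare (z : ZMod p) := by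
  have h1 : IsSquare ((z.natAbs : ℕ) : ZMod p) :=
    sq_of_primes z.natAbs (fun l hl hlz => h l hl (Int.natCast_dvd.2 hlz))
  rcases Int.natAbs_eq z with h2 | h2
  · rw [h2]
    simpa using h1
  · rw [h2]
    have := hm.mul h1
    simpa using this

theorem mod8 {p : ℕ} [Fact p.Prime] (h2 : p ≠ 2) (hm : IsSquare (-1 : ZMod p))
    (ht : IsSquare (2 : ZMod p)) : p % 8 = 1 := by
  have h1 := (ZMod.exists_sq_eq_two_iff h2).1 ht
  have h3 := ZMod.exists_sq_eq_neg_one_iff.1 hm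
  omega

theorem recip {p l : ℕ} [Fact p.Prime] [Fact l.Prime] (hp : p % 4 = 1) (hl : l ≠ 2)
    (h : IsSquare (l : ZMod p)) : IsSquare (p : ZMod l) :=
  (ZMod.exists_sq_eq_prime_iff_of_mod_four_eq_one hp hl).1 h

end Pool.Agent.H68.A
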