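import Pool.Agent.H68.A.Plc
import Pool.Agent.H68.A.Nr

/-!
# The classes for a twist by split and silent primes
-/

set_option autoImplicit false

namespace Pool.Agent.H68.A

open Pool.Agent.R413.TI

/-- a split prime: `-1`, `2` and the prime factors of `b (a² - 4 b)` are squares modulo `p` -/
def Spl (a b : ℤ) (p : ℕ) : Prop := p.Prime ∧ p ≠ 2 ∧ ¬ (p : ℤ) ∣ b * (a ^ 2 - 4 * b) ∧
  IsSquare (-1 : ZMod p) ∧ IsSquare (2 : ZMod p) ∧
  ∀ l : ℕ, l.Prime → (l : ℤ) ∣ b * (a ^ 2 - 4 * b) → IsSquare (l : ZMod p)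

/-- a silent prime: `b` and `a² - 4 b` are not squares modulo `q` -/
def Sil (a b : ℤ) (q : ℕ) : Prop := q.Prime ∧ q ≠ 2 ∧ ¬ IsSquare (b : ZMod q) ∧
  ¬ IsSquare ((a ^ 2 - 4 * b : ℤ) : ZMod q)

/-- a number which is a square at infinity, at two and at the prime factors of `n` -/
def Tr (n N : ℤ) : Prop := 0 < N ∧ N % 8 = 1 ∧
  ∀ l : ℕ, l.Prime → l ≠ 2 → (l : ℤ) ∣ n → ¬ (l : ℤ) ∣ N ∧ IsSquare (N : ZMod l)

/-- the conditions at infinity, at two and at the prime factors of `n` -/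
def Bd (n a b z : ℤ) : Prop := W ℝ (a : ℝ) (b : ℝ) (z : ℝ) ∧
  W ℚ_[2] (a : ℚ_[2]) (b : ℚ_[2]) (z : ℚ_[2]) ∧
  ∀ (p : ℕ) [Fact p.Prime], p ≠ 2 → (p : ℤ) ∣ n → W ℚ_[p] (a : ℚ_[p]) (b : ℚ_[p]) (z : ℚ_[p])

theorem Tr_mul {n M N : ℤ} (hM : Tr n M) (hN : Tr n N) : Tr n (M * N) := by
  obtain ⟨h1, h2, h3⟩ := hM
  obtain ⟨k1, k2, k3⟩ := hN
  refine ⟨mul_pos h1 k1, by rw [Int.mul_emod, h2, k2]; norm_num, ?_⟩
  intro l hl hl2 hln
  obtain ⟨h4, h5⟩ := h3 l hl hl2 hln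
  obtain ⟨k4, k5⟩ := k3 l hl hl2 hln
  have hpi : Prime (l : ℤ) := Nat.prime_iff_prime_int.1 hl
  refine ⟨fun h => (hpi.dvd_or_dvd h).elim h4 k4, ?_⟩
  push_cast
  exact h5.mul k5

theorem Tr_one (n : ℤ) : Tr n 1 := by
  refine ⟨one_pos, by norm_num, ?_⟩
  intro l hl hl2 hln
  have hpi : Prime (l : ℤ) := Nat.prime_iff_prime_int.1 hl
  exact ⟨fun h => hpi.not_isUnit (isUnit_of_dvd_one h), ⟨1, by simp⟩⟩

theorem Tr_prod {n : ℤ} (V : Finset ℕ) (h : ∀ r ∈ V, Tr n (r : ℤ)) :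
    Tr n (∏ r ∈ V, (r : ℤ)) := by
  classical
  induction V using Finset.induction_on with
  | empty => simpa using Tr_one n
  | insert r V hr ih =>
    rw [Finset.prod_insert hr]
    exact Tr_mul (h r (Finset.mem_insert_self r V))
      (ih (fun s hs => h s (Finset.mem_insert_of_mem hs)))

theorem Spl_Tr {a b : ℤ} {p : ℕ} (h : Spl a b p) : Tr (b * (a ^ 2 - 4 * b)) p := by
  obtain ⟨h1, h2, h3, h4, h5, h6⟩ := h
  have := Fact.mk h1
  have h8 := mod8 h2 h4 h5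
  refine ⟨by exact_mod_cast h1.pos, by omega, ?_⟩
  intro l hl hl2 hln
  have := Fact.mk hl
  constructor
  · intro h7
    rw [Int.natCast_dvd_natCast] at h7
    exact h3 ((Nat.prime_dvd_prime_iff_eq hl h1).1 h7 ▸ hln)
  · have := recip (by omega) hl2 (h6 l hl hln)
    simpa using this

theorem Bd_tw {n a b D z : ℤ} (hb : b ≠ 0) (hz : z ≠ 0) (hD : Tr n D) :
    Bd n (a * D) (b * D ^ 2) z ↔ Bd n a b z := by
  obtain ⟨h1, h2, h3⟩ := hD
  unfold Bd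
  rw [W_real hb hz h1, W_two hb hz h2]
  refine and_congr Iff.rfl (and_congr Iff.rfl ?_)
  constructor
  · intro h p _ hp hpn
    exact (W_odd hp hb hz (h3 p Fact.out hp hpn).1 (h3 p Fact.out hp hpn).2).1 (h p hp hpn)
  · intro h p _ hp hpn
    exact (W_odd hp hb hz (h3 p Fact.out hp hpn).1 (h3 p Fact.out hp hpn).2).2 (h p hp hpn)

theorem W_mulsq {K : Type} [Field K] {a b z N : K} (hb : b ≠ 0) (hz : z ≠ 0) (hN : N ≠ 0)
    (h : IsSquare N) : W K a b (z * N) ↔ W K a b z := by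
  obtain ⟨t, rfl⟩ := h
  have ht : t ≠ 0 := by
    rintro rfl
    exact hN (by ring)
  rw [← pow_two]
  exact W_mul_sq hb hz ht

theorem Bd_mul {n a b z N : ℤ} (hb : b ≠ 0) (hz : z ≠ 0) (hN : Tr n N) :
    Bd n a b (z * N) ↔ Bd n a b z := by
  obtain ⟨h1, h2, h3⟩ := hN
  have h0 : N ≠ 0 := h1.ne'
  unfold Bd
  push_cast
  refine and_congr ?_ (and_congr ?_ ?_)
  · have h4 : (0 : ℝ) < N := by exact_mod_cast h1
    exact W_mulsq (by exact_mod_cast hb) (by exact_mod_cast hz) h4.ne'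
      ⟨√(N : ℝ), (Real.mul_self_sqrt h4.le).symm⟩
  · exact W_mulsq (by exact_mod_cast hb) (by exact_mod_cast hz) (by exact_mod_cast h0)
      (padic_sq2 h2)
  · constructor
    · intro h p _ hp hpn
      exact (W_mulsq (by exact_mod_cast hb) (by exact_mod_cast hz) (by exact_mod_cast h0)
        (padic_sq hp (h3 p Fact.out hp hpn).1 (h3 p Fact.out hp hpn).2)).1 (h p hp hpn)
    · intro h p _ hp hpn
      exact (W_mulsq (by exact_mod_cast hb) (by exact_mod_cast hz) (by exact_mod_cast h0)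
        (padic_sq hp (h3 p Fact.out hp hpn).1 (h3 p Fact.out hp hpn).2)).2 (h p hp hpn)

/-- for the classes which divide `b`, only the bad places matter -/
theorem Ew_iff_Bd {a b z : ℤ} (hz : z ∣ b) :
    Ew a b z ↔ Bd (b * (a ^ 2 - 4 * b)) a b z := by
  constructor
  · rintro ⟨h1, h2⟩
    exact ⟨h1, h2 2, fun p _ _ _ => h2 p⟩
  · rintro ⟨h1, h2, h3⟩
    refine ⟨h1, fun p hp => ?_⟩
    by_cases hp2 : p = 2
    · subst hp2
      exact h2
    by_cases hpn : (p : ℤ) ∣ b * (a ^ 2 - 4 * b)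
    · exact h3 p hp2 hpn
    · exact W_good hp2 (fun h => hpn (h.mul_right _)) (fun h => hpn (h.mul_left _))
        (fun h => hpn ((h.trans hz).mul_right _))

section
variable (P Q : Finset ℕ) (f : ℕ → ZMod 2)

/-- the sum of the symbols at `p` -/
noncomputable def dg (p : ℕ) : ZMod 2 := f p + ∑ s ∈ (P ∪ Q).erase p, nr p (s : ℤ)

/-- the good subsets -/
def Gd (V : Finset ℕ) : Prop :=
  ∀ p ∈ P, ∑ r ∈ V.erase p, nr p (r : ℤ) + (if p ∈ V then dg P Q f p else 0) = 0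

end

/-- the data of a twist -/
structure Dat (a b : ℤ) (P Q : Finset ℕ) (f : ℕ → ZMod 2) : Prop where
  hb : b ≠ 0
  hc : a ^ 2 - 4 * b ≠ 0
  hP : ∀ p ∈ P, Spl a b p
  hQ : ∀ q ∈ Q, Sil a b q
  hT : Tr (b * (a ^ 2 - 4 * b)) (∏ q ∈ Q, (q : ℤ))
  hf : ∀ p ∈ P, ∃ e : ZMod p, e ^ 2 + (a : ZMod p) * e + (b : ZMod p) = 0 ∧
    (f p = 0 ↔ IsSquare e)

section
variable {a b : ℤ} {P Q : Finset ℕ} {f : ℕ → ZMod 2} (h : Dat a b P Q f)
include h

theorem Dat.disj : Disjoint P Q := by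
  rw [Finset.disjoint_left]
  intro p hp hq
  obtain ⟨h1, h2, h3, h4, h5, h6⟩ := h.hP p hp
  apply (h.hQ p hq).2.2.1
  have := Fact.mk h1
  exact sq_of_primes_int b h4 (fun l hl hlb => h6 l hl (hlb.mul_right _))

theorem Dat.prime {p : ℕ} (hp : p ∈ P ∪ Q) : p.Prime := by
  rcases Finset.mem_union.1 hp with hp | hp
  · exact (h.hP p hp).1
  · exact (h.hQ p hp).1

theorem Dat.TrV {V : Finset ℕ} (hV : V ⊆ P) :
    Tr (b * (a ^ 2 - 4 * b)) (∏ r ∈ V, (r : ℤ)) :=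
  Tr_prod V (fun r hr => Spl_Tr (h.hP r (hV hr)))

theorem Dat.TrD : Tr (b * (a ^ 2 - 4 * b)) (∏ r ∈ P ∪ Q, (r : ℤ)) := by
  rw [Finset.prod_union h.disj]
  exact Tr_mul (h.TrV subset_rfl) h.hT

end

end Pool.Agent.H68.A
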