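import Mathlib

/-!
# Classes of points of `y² = x (x² + a x + b)` over a field
-/

set_option autoImplicit false

namespace Pool.Agent.H68.A

section
variable {K : Type} [Field K]

/-- the quartic `N² = z M⁴ + a M² e² + (b / z) e⁴` has a nontrivial point over `K` -/
def W (K : Type) [Field K] (a b z : K) : Prop :=
  ∃ N M e : K, (M ≠ 0 ∨ e ≠ 0) ∧ N ^ 2 = z * M ^ 4 + a * M ^ 2 * e ^ 2 + (b / z) * e ^ 4

/-- the description by the points -/
theorem W_iff {a b z : K} (_hb : b ≠ 0) (hz : z ≠ 0) : W K a b z ↔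
    IsSquare z ∨ IsSquare (b * z) ∨
      ∃ x y w : K, x ≠ 0 ∧ y ^ 2 = x * (x ^ 2 + a * x + b) ∧ z * x = w ^ 2 := by
  constructor
  · rintro ⟨N, M, e, h0, h⟩
    by_cases he : e = 0
    · have hM : M ≠ 0 := by
        rcases h0 with h0 | h0
        · exact h0
        · exact absurd he h0
      left
      refine ⟨N / M ^ 2, ?_⟩
      rw [he] at h
      field_simp
      linear_combination -h
    by_cases hM : M = 0
    · right; left
      refine ⟨N * z / e ^ 2, ?_⟩
      rw [hM] at h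
      have h1 : N ^ 2 * z = b * e ^ 4 := by
        rw [h]
        field_simp
        ring
      field_simp
      linear_combination -h1
    · right; right
      refine ⟨z * M ^ 2 / e ^ 2, z * M * N / e ^ 3, z * M / e, ?_, ?_, ?_⟩
      · exact div_ne_zero (mul_ne_zero hz (pow_ne_zero 2 hM)) (pow_ne_zero 2 he)
      · have h1 : N ^ 2 * z = z ^ 2 * M ^ 4 + a * z * M ^ 2 * e ^ 2 + b * e ^ 4 := by
          rw [h]
          field_simp
        field_simp
        linear_combination h1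
      · field_simp
  · rintro (⟨w, hw⟩ | ⟨w, hw⟩ | ⟨x, y, w, hx, hy, hw⟩)
    · refine ⟨w, 1, 0, Or.inl one_ne_zero, ?_⟩
      rw [hw]
      ring
    · refine ⟨w / z, 0, 1, Or.inr one_ne_zero, ?_⟩
      field_simp
      linear_combination -hw
    · have hw0 : w ≠ 0 := by
        rintro rfl
        exact mul_ne_zero hz hx (by rw [hw]; ring)
      refine ⟨y / w, w / z, 1, Or.inr one_ne_zero, ?_⟩
      field_simp
      linear_combination z ^ 3 * hy +
        (z ^ 2 * x ^ 2 + a * z ^ 2 * x + b * z ^ 2 + w ^ 2 * (z * x + w ^ 2) + w ^ 2 * a * z) * hw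

/-- the class matters only -/
theorem W_mul_sq {a b z t : K} (hb : b ≠ 0) (hz : z ≠ 0) (ht : t ≠ 0) :
    W K a b (z * t ^ 2) ↔ W K a b z := by
  rw [W_iff hb hz, W_iff hb (mul_ne_zero hz (pow_ne_zero 2 ht))]
  refine or_congr ?_ (or_congr ?_ ?_)
  · constructor
    · rintro ⟨w, hw⟩
      exact ⟨w / t, by field_simp; linear_combination hw⟩
    · rintro ⟨w, hw⟩
      exact ⟨w * t, by rw [hw]; ring⟩
  · constructor
    · rintro ⟨w, hw⟩
      exact ⟨w / t, by field_simp; linear_combination hw⟩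
    · rintro ⟨w, hw⟩
      exact ⟨w * t, by linear_combination t ^ 2 * hw⟩
  · constructor
    · rintro ⟨x, y, w, h1, h2, h3⟩
      exact ⟨x, y, w / t, h1, h2, by field_simp; linear_combination h3⟩
    · rintro ⟨x, y, w, h1, h2, h3⟩
      exact ⟨x, y, w * t, h1, h2, by linear_combination t ^ 2 * h3⟩

/-- change of the equation -/
theorem W_twist {a b z t : K} (hb : b ≠ 0) (hz : z ≠ 0) (ht : t ≠ 0) :
    W K (a * t ^ 2) (b * t ^ 4) z ↔ W K a b z := by
  rw [W_iff hb hz, W_iff (mul_ne_zero hb (pow_ne_zero 4 ht)) hz]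
  refine or_congr Iff.rfl (or_congr ?_ ?_)
  · constructor
    · rintro ⟨w, hw⟩
      exact ⟨w / t ^ 2, by field_simp; linear_combination hw⟩
    · rintro ⟨w, hw⟩
      exact ⟨w * t ^ 2, by linear_combination t ^ 4 * hw⟩
  · constructor
    · rintro ⟨x, y, w, h1, h2, h3⟩
      refine ⟨x / t ^ 2, y / t ^ 3, w / t, div_ne_zero h1 (pow_ne_zero 2 ht), ?_, ?_⟩
      · field_simp
        linear_combination h2
      · field_simp
        linear_combination h3
    · rintro ⟨x, y, w, h1, h2, h3⟩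
      refine ⟨x * t ^ 2, y * t ^ 3, w * t, mul_ne_zero h1 (pow_ne_zero 2 ht), ?_, ?_⟩
      · linear_combination t ^ 6 * h2
      · linear_combination t ^ 2 * h3

theorem W_one {a b : K} (hb : b ≠ 0) : W K a b 1 :=
  (W_iff hb one_ne_zero).2 (Or.inl ⟨1, by ring⟩)

theorem W_self {a b : K} (hb : b ≠ 0) : W K a b b :=
  (W_iff hb hb).2 (Or.inr (Or.inl ⟨b, rfl⟩))

theorem W_sq {a b z : K} (hb : b ≠ 0) (hz : z ≠ 0) (h : IsSquare z) : W K a b z :=
  (W_iff hb hz).2 (Or.inl h)

/-- the class of a point -/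
theorem W_pt {a b x y : K} (hb : b ≠ 0) (hx : x ≠ 0) (h : y ^ 2 = x * (x ^ 2 + a * x + b)) :
    W K a b x :=
  (W_iff hb hx).2 (Or.inr (Or.inr ⟨x, y, x, hx, h, by ring⟩))

/-- the other quartic -/
theorem W_swap {a b z : K} (hb : b ≠ 0) (hz : z ≠ 0) : W K a b (b * z) ↔ W K a b z := by
  have h1 : W K a b (b / z) ↔ W K a b z := by
    constructor
    · rintro ⟨N, M, e, h0, h⟩
      refine ⟨N, e, M, h0.symm, ?_⟩
      rw [h]
      field_simp
      ring
    · rintro ⟨N, M, e, h0, h⟩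
      refine ⟨N, e, M, h0.symm, ?_⟩
      rw [h]
      field_simp
      ring
  have h2 : b * z = b / z * z ^ 2 := by field_simp
  rw [h2, W_mul_sq hb (div_ne_zero hb hz) hz, h1]

theorem W_of_isSquare_mul {a b z z' : K} (hb : b ≠ 0) (hz : z ≠ 0) (hz' : z' ≠ 0)
    (h : IsSquare (z * z')) (hw : W K a b z) : W K a b z' := by
  obtain ⟨t, ht⟩ := h
  have e : z' = z * (t / z) ^ 2 := by
    field_simp
    linear_combination ht
  have ht0 : t ≠ 0 := by
    rintro rfl
    exact mul_ne_zero hz hz' (by rw [ht]; ring)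
  rw [e]
  exact (W_mul_sq hb hz (div_ne_zero ht0 hz)).2 hw

/-- the classes are closed under multiplication -/
theorem W_mul {a b z z' : K} (hb : b ≠ 0) (hz : z ≠ 0) (hz' : z' ≠ 0)
    (h : W K a b z) (h' : W K a b z') : W K a b (z * z') := by
  have hzz := mul_ne_zero hz hz'
  rcases (W_iff hb hz).1 h with h1 | h1 | ⟨x, y, w, hx, hy, hw⟩
  · exact W_of_isSquare_mul hb hz' hzz (by
      obtain ⟨u, hu⟩ := h1
      exact ⟨z' * u, by rw [hu]; ring⟩) h'
  · have := (W_swap hb hz').2 h'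
    exact W_of_isSquare_mul hb (mul_ne_zero hb hz') hzz (by
      obtain ⟨u, hu⟩ := h1
      exact ⟨z' * u, by linear_combination z' ^ 2 * hu⟩) this
  rcases (W_iff hb hz').1 h' with h2 | h2 | ⟨x', y', w', hx', hy', hw'⟩
  · exact W_of_isSquare_mul hb hz hzz (by
      obtain ⟨u, hu⟩ := h2
      exact ⟨z * u, by rw [hu]; ring⟩) h
  · have := (W_swap hb hz).2 h
    exact W_of_isSquare_mul hb (mul_ne_zero hb hz) hzz (by
      obtain ⟨u, hu⟩ := h2
      exact ⟨z * u, by linear_combination z ^ 2 * hu⟩) this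
  have hw0 : w ≠ 0 := by
    rintro rfl
    exact mul_ne_zero hz hx (by rw [hw]; ring)
  have hw0' : w' ≠ 0 := by
    rintro rfl
    exact mul_ne_zero hz' hx' (by rw [hw']; ring)
  have hxx : IsSquare (x * x' * (z * z')) := ⟨w * w', by linear_combination z' * x' * hw + w ^ 2 * hw'⟩
  by_cases hxe : x = x'
  · refine W_sq hb hzz ?_
    refine ⟨w * w' / x, ?_⟩
    subst hxe
    field_simp
    linear_combination (z' * x) * hw + w ^ 2 * hw'
  -- the chord
  obtain ⟨l, hl⟩ : ∃ l, l = (y - y') / (x - x') := ⟨_, rfl⟩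
  have hxs : x - x' ≠ 0 := sub_ne_zero.2 hxe
  have hl' : l * (x - x') = y - y' := by rw [hl]; field_simp
  obtain ⟨n, hn⟩ : ∃ n, n = y - l * x := ⟨_, rfl⟩
  obtain ⟨X, hX⟩ : ∃ X, X = l ^ 2 - a - x - x' := ⟨_, rfl⟩
  have hy2 : y = l * x + n := by rw [hn]; ring
  have hy2' : y' = l * x' + n := by rw [hn]; linear_combination hl'
  have hq : x ^ 2 + x * x' + x' ^ 2 + (a - l ^ 2) * (x + x') + (b - 2 * l * n) = 0 := by
    apply mul_left_cancel₀ hxs
    rw [hy2] at hy
    rw [hy2'] at hy'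
    linear_combination hy' - hy
  have h1 : x * x' + x * X + x' * X = b - 2 * l * n := by
    rw [hX]
    linear_combination -hq
  have h0 : x * x' * X = n ^ 2 := by
    have h2 : n ^ 2 = x * (x ^ 2 + (a - l ^ 2) * x + (b - 2 * l * n)) := by
      rw [hy2] at hy
      linear_combination hy
    rw [h2, ← h1, hX]
    ring
  by_cases hX0 : X = 0
  · have hn0 : n = 0 := by
      rw [hX0, mul_zero] at h0
      exact pow_eq_zero_iff two_ne_zero |>.1 h0.symm
    rw [hX0, hn0] at h1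
    have h3 : x * x' = b := by linear_combination h1
    exact (W_iff hb hzz).2 (Or.inr (Or.inl (by rw [← h3]; exact hxx)))
  · have hpt : (l * X + n) ^ 2 = X * (X ^ 2 + a * X + b) := by
      have e1 : a = l ^ 2 - X - x - x' := by rw [hX]; ring
      have e2 : b = x * x' + x * X + x' * X + 2 * l * n := by linear_combination -h1
      rw [e1, e2]
      linear_combination -h0
    have hWX := W_pt hb hX0 hpt
    refine W_of_isSquare_mul hb hX0 hzz ?_ hWX
    obtain ⟨u, hu⟩ := hxx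
    have hxx0 : x * x' ≠ 0 := mul_ne_zero hx hx'
    refine ⟨n * u / (x * x'), ?_⟩
    have e3 : X = n ^ 2 / (x * x') := by
      field_simp
      linear_combination h0
    rw [e3]
    field_simp
    linear_combination n ^ 2 * hu

/-- the conic `w² = z u² + y v²` has a point: the Hilbert symbol is trivial -/
def Cn (z y : K) : Prop :=
  ∃ u v w : K, (u ≠ 0 ∨ v ≠ 0 ∨ w ≠ 0) ∧ w ^ 2 = z * u ^ 2 + y * v ^ 2

theorem Cn_symm {z y : K} (h : Cn z y) : Cn y z := by
  obtain ⟨u, v, w, h0, h⟩ := h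
  exact ⟨v, u, w, by tauto, by linear_combination h⟩

theorem Cn_left {z z' y : K} (hz : z ≠ 0) (hz' : z' ≠ 0) (hs : IsSquare (z * z')) (h : Cn z y) :
    Cn z' y := by
  obtain ⟨u, v, w, h0, h⟩ := h
  obtain ⟨t, ht⟩ := hs
  have ht0 : t ≠ 0 := by
    rintro rfl
    exact mul_ne_zero hz hz' (by rw [ht]; ring)
  refine ⟨u * t / z', v, w, ?_, ?_⟩
  · rcases h0 with h0 | h0 | h0
    · exact Or.inl (div_ne_zero (mul_ne_zero h0 ht0) hz')
    · exact Or.inr (Or.inl h0)
    · exact Or.inr (Or.inr h0)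
  · rw [h]
    field_simp
    linear_combination u ^ 2 * ht

theorem Cn_right {z y y' : K} (hy : y ≠ 0) (hy' : y' ≠ 0) (hs : IsSquare (y * y')) (h : Cn z y) :
    Cn z y' := Cn_symm (Cn_left hy hy' hs (Cn_symm h))

theorem Cn_sq {z y : K} (h : IsSquare z) : Cn z y := by
  obtain ⟨t, ht⟩ := h
  exact ⟨1, 0, t, Or.inl one_ne_zero, by rw [ht]; ring⟩

/-- the classes for the two isogenous curves are orthogonal: the Hilbert symbol is trivial -/
theorem W_orth {a b z y : K} (h2 : (2 : K) ≠ 0) (hb : b ≠ 0) (hc : a ^ 2 - 4 * b ≠ 0)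
    (hz : z ≠ 0) (hy : y ≠ 0) (h : W K a b z) (h' : W K (-2 * a) (a ^ 2 - 4 * b) y) : Cn z y := by
  rcases (W_iff hb hz).1 h with h1 | h1 | ⟨x, s, w, hx, hs, hw⟩
  · exact Cn_sq h1
  · refine Cn_left hb hz h1 ?_
    rcases (W_iff hc hy).1 h' with h1' | h1' | ⟨X, S, w', hX, hS, hw'⟩
    · exact Cn_symm (Cn_sq h1')
    · refine Cn_right hc hy h1' ?_
      exact ⟨2, 1, a, Or.inl h2, by ring⟩
    · refine Cn_right hX hy ⟨w', by rw [mul_comm, hw']; ring⟩ ?_
      by_cases hN : (X - a) ^ 2 - 4 * b = 0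
      · apply Cn_sq
        refine ⟨(X - a) / 2, ?_⟩
        field_simp
        linear_combination -hN
      · exact ⟨2 * S, (X - a) ^ 2 - 4 * b, S * (X - a), Or.inr (Or.inl hN), by
          linear_combination ((X - a) ^ 2 - 4 * b) * hS⟩
  · refine Cn_left hx hz ⟨w, by rw [mul_comm, hw]; ring⟩ ?_
    rcases (W_iff hc hy).1 h' with h1' | h1' | ⟨X, S, w', hX, hS, hw'⟩
    · exact Cn_symm (Cn_sq h1')
    · refine Cn_right hc hy h1' ?_
      by_cases hN : (2 * x + a) ^ 2 - (a ^ 2 - 4 * b) = 0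
      · apply Cn_symm
        apply Cn_sq
        exact ⟨2 * x + a, by linear_combination -hN⟩
      · exact ⟨(2 * x + a) ^ 2 - (a ^ 2 - 4 * b), 2 * s, 2 * s * (2 * x + a), Or.inl hN, by
          linear_combination (4 * ((2 * x + a) ^ 2 - (a ^ 2 - 4 * b))) * hs⟩
    · refine Cn_right hX hy ⟨w', by rw [mul_comm, hw']; ring⟩ ?_
      obtain ⟨Q, hQ⟩ : ∃ Q, Q = X ^ 2 - (4 * x + 2 * a) * X + (a ^ 2 - 4 * b) := ⟨_, rfl⟩
      have e1 : S ^ 2 - 4 * x * X ^ 2 = X * Q := by
        rw [hQ]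
        linear_combination hS
      have e2 : Q = (X - 2 * x - a) ^ 2 - 4 * (x ^ 2 + a * x + b) := by
        rw [hQ]
        ring
      by_cases hN : Q = 0
      · apply Cn_sq
        refine ⟨S / (2 * X), ?_⟩
        rw [hN] at e1
        field_simp
        linear_combination -e1
      · refine ⟨2 * s * S / x + 2 * X * (X - 2 * x - a), Q, S * (X - 2 * x - a) + 4 * X * s,
          Or.inr (Or.inl hN), ?_⟩
        have e3 : x * (2 * s * S / x + 2 * X * (X - 2 * x - a)) ^ 2 =
            4 * (x ^ 2 + a * x + b) * S ^ 2 + 8 * s * S * X * (X - 2 * x - a) +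
              4 * x * X ^ 2 * (X - 2 * x - a) ^ 2 := by
          field_simp
          linear_combination 4 * S ^ 2 * hs
        rw [e3]
        linear_combination (Q) * e1 - (S ^ 2 - 4 * x * X ^ 2) * e2 + (16 * X ^ 2) * hs

end
end Pool.Agent.H68.A
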