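import Pool.Agent.H68.L.R_seed8.H437R2.Man.MWWeak
import Pool.Agent.H68.L.R_pool_sql_team_seeded_b0a926ef.R413.TI.StmG

/-!
# Mordell-Weil for `y² = x³ + a x² + b x` over `ℚ`, by base change to the field of the 2-torsion
-/

set_option autoImplicit false

namespace Pool.Agent.H68.A

open WeierstrassCurve Pool.Agent.R413.TI Polynomial

theorem mw (a b : ℤ) (hb : b ≠ 0) (hc : a ^ 2 - 4 * b ≠ 0) :
    Module.Finite ℤ (CE a b).toAffine.Point := by
  classical
  let f : ℚ[X] := X ^ 2 - C ((a ^ 2 - 4 * b : ℤ) : ℚ)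
  let K := f.SplittingField
  have : NumberField K := { to_charZero := charZero_of_injective_algebraMap (algebraMap ℚ K).injective
                            to_finiteDimensional := inferInstance }
  obtain ⟨δ, hδ⟩ : ∃ δ : K, δ ^ 2 = ((a ^ 2 - 4 * b : ℤ) : K) := by
    have h1 := Polynomial.SplittingField.splits f
    have hd : (f.map (algebraMap ℚ K)).degree ≠ 0 := by
      rw [Polynomial.degree_map]
      show (X ^ 2 - C ((a ^ 2 - 4 * b : ℤ) : ℚ) : ℚ[X]).degree ≠ 0
      rw [degree_X_pow_sub_C (by norm_num)]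
      norm_num
    obtain ⟨x, hx⟩ := h1.exists_eval_eq_zero hd
    refine ⟨x, ?_⟩
    rw [Polynomial.eval_map_algebraMap] at hx
    simp only [f, map_sub, map_pow, aeval_X, map_intCast] at hx
    exact sub_eq_zero.1 hx
  have h2 : (2 : K) ≠ 0 := by norm_num
  have hδ0 : δ ≠ 0 := by
    rintro rfl
    rw [zero_pow two_ne_zero] at hδ
    exact hc (by exact_mod_cast hδ.symm)
  have hb' : (b : K) ≠ 0 := by exact_mod_cast hb
  have hδ' : δ ^ 2 = (a : K) ^ 2 - 4 * (b : K) := by
    rw [hδ, Int.cast_sub, Int.cast_mul, Int.cast_pow]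
    norm_num
  obtain ⟨e2, he2⟩ : ∃ e2 : K, 2 * e2 = (a : K) + δ := ⟨((a : K) + δ) / 2, mul_div_cancel₀ _ h2⟩
  obtain ⟨e3, he3⟩ : ∃ e3 : K, 2 * e3 = (a : K) - δ := ⟨((a : K) - δ) / 2, mul_div_cancel₀ _ h2⟩
  have h23 : e2 * e3 = b := by
    have h4 : (4 : K) ≠ 0 := by norm_num
    apply mul_left_cancel₀ h4
    linear_combination (2 * e3) * he2 + (a + δ) * he3 - hδ'
  have hs : e2 + e3 = a := by
    apply mul_left_cancel₀ h2
    linear_combination he2 + he3
  have q12 : (0 : K) ≠ e2 := by
    intro h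
    rw [← h, zero_mul] at h23
    exact hb' h23.symm
  have q13 : (0 : K) ≠ e3 := by
    intro h
    rw [← h, mul_zero] at h23
    exact hb' h23.symm
  have q23 : e2 ≠ e3 := by
    intro h
    apply hδ0
    have : 2 * δ = 2 * 0 := by
      linear_combination he3 - he2 + 2 * h
    exact mul_left_cancel₀ h2 this
  have hfg := Pool.Agent.H437R2.Man.MW.pt_fg (K := K) q12 q13 q23
  have hcrv : Pool.Agent.H437R2.Man.MW.crv (0 : K) e2 e3 = (CE a b).baseChange K := by
    simp only [Pool.Agent.H437R2.Man.MW.crv, CE, WeierstrassCurve.baseChange, WeierstrassCurve.map,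
      WeierstrassCurve.mk.injEq, map_zero, map_intCast, true_and]
    refine ⟨by rw [zero_add, hs], by rw [← h23]; ring, by ring⟩
  have hfg' : Module.Finite ℤ ((CE a b).baseChange K).toAffine.Point := by
    rw [← hcrv]
    exact Module.Finite.iff_addGroup_fg.2 hfg
  have e : (CE a b).baseChange ℚ = CE a b := WeierstrassCurve.map_id _
  have key : Module.Finite ℤ ((CE a b).baseChange ℚ).toAffine.Point :=
    Module.Finite.of_injective
      (WeierstrassCurve.Affine.Point.map (W' := CE a b) (Algebra.ofId ℚ K)).toIntLinearMap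
      (WeierstrassCurve.Affine.Point.map_injective (W' := CE a b) (Algebra.ofId ℚ K))
  rwa [e] at key

end Pool.Agent.H68.A
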