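import Pool.Agent.H68.A.Cls
import Pool.Agent.H68.A.Mw
import Pool.Agent.H68.L.R_pool_sql_team_seeded_b0a926ef.R413.TI.Grp
import Pool.Agent.H68.L.R_pool_sql_team_seeded_b0a926ef.R413.TI.Ima
import Pool.Agent.H68.L.R_pool_sql_team_seeded_b0a926ef.R413.TI.Imb
import Pool.Agent.H68.L.R_pool_sql_team_seeded_b0a926ef.R413.TI.Imc

/-!
# The rank is at most the 2-isogeny Selmer rank
-/

set_option autoImplicit false

namespace Pool.Agent.H68.A

open WeierstrassCurve Pool.Agent.R413.TI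

/-- the index of a subgroup which contains the points with square class -/
theorem index_le (a b : ℤ) (hb : b ≠ 0) (hc : a ^ 2 - 4 * b ≠ 0)
    (R : AddSubgroup (CE a b).toAffine.Point) (h : ∀ P, IsSquare (cl a b P) → P ∈ R) :
    R.index ≤ (CL a b).ncard := by
  classical
  choose g hg1 hg2 using imc a b hb hc
  have hfin := CL_finite a hb
  have key : ∀ P Q : (CE a b).toAffine.Point, g P = g Q →
      (QuotientAddGroup.mk P : (CE a b).toAffine.Point ⧸ R) = QuotientAddGroup.mk Q := by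
    intro P Q hPQ
    rw [QuotientAddGroup.eq]
    apply h
    obtain ⟨n1, n2, n3⟩ := imb a b hb hc (-P) Q
    obtain ⟨p1, p2, p3⟩ := imb a b hb hc P Q
    obtain ⟨q1, q2, q3⟩ := imb a b hb hc Q Q
    rw [p2] at n3
    obtain ⟨s, hs⟩ := hg2 P
    obtain ⟨t, ht⟩ := hg2 Q
    obtain ⟨u, hu⟩ := n3
    have hg0 : ((g P : ℤ) : ℚ) ≠ 0 := by
      exact_mod_cast (hg1 P).1.ne_zero
    rw [← hPQ] at ht
    refine ⟨g P * (u * s * t) / (g P ^ 2 * (cl a b P * cl a b Q)), ?_⟩
    field_simp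
    linear_combination ((g P : ℚ) ^ 2 * cl a b P * cl a b Q) * hu +
      (u ^ 2 * g P * cl a b Q) * hs + u ^ 2 * s ^ 2 * ht
  let F : (CE a b).toAffine.Point ⧸ R → CL a b := fun q => ⟨g q.out, hg1 q.out⟩
  have hF : Function.Injective F := by
    intro x y hxy
    have h1 := key x.out y.out (congrArg Subtype.val hxy)
    simpa using h1
  have : Finite (CL a b) := hfin.to_subtype
  have h2 := Nat.card_le_card_of_injective F hF
  rwa [Nat.card_coe_set_eq] at h2

/-- the rank bound -/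
theorem rank_bound (a b : ℤ) (hb : b ≠ 0) (hc : a ^ 2 - 4 * b ≠ 0) :
    4 * 2 ^ Module.finrank ℤ (CE a b).toAffine.Point ≤
      (CL a b).ncard * (CL (-2 * a) (a ^ 2 - 4 * b)).ncard := by
  have hb' : (-2 * a) ^ 2 - 4 * (a ^ 2 - 4 * b) ≠ 0 := by
    have : (-2 * a) ^ 2 - 4 * (a ^ 2 - 4 * b) = 16 * b := by ring
    rw [this]
    exact mul_ne_zero (by norm_num) hb
  obtain ⟨φ, ψ, T, T', h1, h2, h3, h4, h5, h6, h7, h8⟩ := ima a b hb hc
  have := mw a b hb hc
  have := mw (-2 * a) (a ^ 2 - 4 * b) hc hb'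
  obtain ⟨k1, k2, k3⟩ := grp _ _ φ ψ T T' h1 h2 h3 h4 h5 h6
  rw [k3]
  exact Nat.mul_le_mul (index_le a b hb hc _ h7) (index_le _ _ hc hb' _ h8)

end Pool.Agent.H68.A
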