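import Pool.Agent.H68.A.Mem
import Pool.Agent.H68.A.Rk

/-!
# The number of the classes for a twist
-/

set_option autoImplicit false

namespace Pool.Agent.H68.A

open Pool.Agent.R413.TI

section
variable {a b : ℤ} {P Q : Finset ℕ} {f : ℕ → ZMod 2} (h : Dat a b P Q f)
include h

open Classical in
theorem Dat.card : (CL (a * ∏ r ∈ P ∪ Q, (r : ℤ)) (b * (∏ r ∈ P ∪ Q, (r : ℤ)) ^ 2)).ncard =
    (CL a b).ncard * (P.powerset.filter (Gd P Q f)).card := by
  have e : CL (a * ∏ r ∈ P ∪ Q, (r : ℤ)) (b * (∏ r ∈ P ∪ Q, (r : ℤ)) ^ 2) =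
      (fun x : ℤ × Finset ℕ => x.1 * ∏ r ∈ x.2, (r : ℤ)) ''
        ((CL a b) ×ˢ ((P.powerset.filter (Gd P Q f) : Finset (Finset ℕ)) : Set (Finset ℕ))) := by
    ext z
    rw [h.mem_iff]
    simp only [Set.mem_image, Set.mem_prod, Finset.mem_coe, Finset.mem_filter,
      Finset.mem_powerset, Prod.exists]
    constructor
    · rintro ⟨c, hc, V, hV, hG, hz⟩
      exact ⟨c, V, ⟨hc, hV, hG⟩, hz.symm⟩
    · rintro ⟨c, V, ⟨hc, hV, hG⟩, hz⟩
      exact ⟨c, hc, V, hV, hG, hz.symm⟩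
  rw [e, Set.InjOn.ncard_image, Set.ncard_prod, Set.ncard_coe_finset]
  rintro ⟨c, V⟩ ⟨h1, h2⟩ ⟨c', V'⟩ ⟨h1', h2'⟩ heq
  simp only [Finset.mem_coe, Finset.mem_filter, Finset.mem_powerset] at h1 h2 h1' h2' heq
  have key : ∀ {c c' : ℤ} {V V' : Finset ℕ}, c' ∈ CL a b → V ⊆ P → V' ⊆ P →
      c * ∏ r ∈ V, (r : ℤ) = c' * ∏ r ∈ V', (r : ℤ) → V ⊆ V' := by
    intro c c' V V' hc' hV hV' heq r hr
    have hpr := (h.hP r (hV hr)).1
    have hpi : Prime (r : ℤ) := Nat.prime_iff_prime_int.1 hpr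
    have h3 : (r : ℤ) ∣ c' * ∏ r ∈ V', (r : ℤ) := by
      rw [← heq]
      exact (Finset.dvd_prod_of_mem _ hr).mul_left _
    rcases hpi.dvd_or_dvd h3 with h4 | h4
    · exact absurd ((h4.trans hc'.2.1).mul_right _) (h.hP r (hV hr)).2.2.1
    · rw [Prime.dvd_finsetProd_iff hpi] at h4
      obtain ⟨s, hs, hrs⟩ := h4
      rw [Int.natCast_dvd_natCast] at hrs
      rwa [(Nat.prime_dvd_prime_iff_eq hpr (h.hP s (hV' hs)).1).1 hrs]
  have hVV : V = V' := Finset.Subset.antisymm (key h1' h2.1 h2'.1 heq)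
    (key h1 h2'.1 h2.1 heq.symm)
  subst hVV
  have h0 : ∏ r ∈ V, (r : ℤ) ≠ 0 := (sqf_prod V (fun r hr => (h.hP r (h2.1 hr)).1)).ne_zero
  rw [mul_right_cancel₀ h0 heq]

end

open Classical in
/-- `0` if the roots of `x² + a x + b` modulo `p` are squares -/
noncomputable def rt (a b : ℤ) (p : ℕ) : ZMod 2 :=
  if ∃ e : ZMod p, e ^ 2 + (a : ZMod p) * e + (b : ZMod p) = 0 ∧ IsSquare e then 0 else 1

theorem rt_iff {a b : ℤ} {p : ℕ} [Fact p.Prime] {e : ZMod p} (hb : IsSquare (b : ZMod p))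
    (hb0 : (b : ZMod p) ≠ 0)
    (he : e ^ 2 + (a : ZMod p) * e + (b : ZMod p) = 0) : rt a b p = 0 ↔ IsSquare e := by
  have h1 : rt a b p = 0 ↔ ∃ e : ZMod p, e ^ 2 + (a : ZMod p) * e + (b : ZMod p) = 0 ∧
      IsSquare e := by
    unfold rt
    split_ifs with h
    · simp [h]
    · simp [h]
  rw [h1]
  constructor
  · rintro ⟨e', he', s, hs⟩
    by_cases hee : e = e'
    · exact ⟨s, by rw [hee, hs]⟩
    · have h2 : e + e' + a = 0 := by
        apply mul_left_cancel₀ (sub_ne_zero.2 hee)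
        linear_combination he - he'
      obtain ⟨t, ht⟩ := hb
      have h3 : e * e' = b := by linear_combination e * h2 - he
      have hs0 : s ≠ 0 := by
        rintro rfl
        apply hb0
        rw [← h3, hs]
        ring
      refine ⟨t / s, ?_⟩
      field_simp
      linear_combination h3 + ht - e * hs
  · intro h
    exact ⟨e, he, h⟩

theorem exists_root {a b : ℤ} {p : ℕ} [Fact p.Prime] (hp : p ≠ 2)
    (hc : IsSquare ((a ^ 2 - 4 * b : ℤ) : ZMod p)) :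
    ∃ e : ZMod p, e ^ 2 + (a : ZMod p) * e + (b : ZMod p) = 0 := by
  obtain ⟨t, ht⟩ := hc
  have h2 : (2 : ZMod p) ≠ 0 := by
    have hp' : ¬ p ∣ 2 := by
      intro h
      exact hp ((Nat.prime_dvd_prime_iff_eq Fact.out Nat.prime_two).1 h)
    intro h
    apply hp'
    rw [← ZMod.natCast_eq_zero_iff]
    exact_mod_cast h
  refine ⟨(-a + t) / 2, ?_⟩
  push_cast at ht
  field_simp
  linear_combination -ht

theorem Spl.sqb {a b : ℤ} {p : ℕ} (h : Spl a b p) : IsSquare (b : ZMod p) ∧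
    IsSquare ((a ^ 2 - 4 * b : ℤ) : ZMod p) ∧ (b : ZMod p) ≠ 0 ∧
      ((a ^ 2 - 4 * b : ℤ) : ZMod p) ≠ 0 := by
  obtain ⟨h1, h2, h3, h4, h5, h6⟩ := h
  refine ⟨sq_of_primes_int b h4 (fun l hl hlb => h6 l hl (hlb.mul_right _)),
    sq_of_primes_int _ h4 (fun l hl hlb => h6 l hl (hlb.mul_left _)), ?_, ?_⟩
  · intro h
    exact h3 (((ZMod.intCast_zmod_eq_zero_iff_dvd _ p).1 h).mul_right _)
  · intro h
    exact h3 (((ZMod.intCast_zmod_eq_zero_iff_dvd _ p).1 h).mul_left _)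

theorem dvd_dual {a b : ℤ} {l : ℕ} (hl : l.Prime) (hl2 : l ≠ 2)
    (h : (l : ℤ) ∣ (a ^ 2 - 4 * b) * ((-2 * a) ^ 2 - 4 * (a ^ 2 - 4 * b))) :
    (l : ℤ) ∣ b * (a ^ 2 - 4 * b) := by
  have hpi : Prime (l : ℤ) := Nat.prime_iff_prime_int.1 hl
  have e : (a ^ 2 - 4 * b) * ((-2 * a) ^ 2 - 4 * (a ^ 2 - 4 * b)) =
      2 ^ 4 * (b * (a ^ 2 - 4 * b)) := by ring
  rw [e] at h
  rcases hpi.dvd_or_dvd h with h1 | h1
  · exfalso
    have h2 := hpi.dvd_of_dvd_pow h1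
    have h3 : l ∣ 2 := by exact_mod_cast h2
    exact hl2 ((Nat.prime_dvd_prime_iff_eq hl Nat.prime_two).1 h3)
  · exact h1

theorem Spl.dual {a b : ℤ} {p : ℕ} (h : Spl a b p) : Spl (-2 * a) (a ^ 2 - 4 * b) p := by
  obtain ⟨h1, h2, h3, h4, h5, h6⟩ := h
  refine ⟨h1, h2, fun h => h3 (dvd_dual h1 h2 h), h4, h5, ?_⟩
  intro l hl hd
  by_cases hl2 : l = 2
  · subst hl2
    exact_mod_cast h5
  · exact h6 l hl (dvd_dual hl hl2 hd)

theorem two_ne {q : ℕ} (hq : q.Prime) (h2 : q ≠ 2) : (2 : ZMod q) ≠ 0 := by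
  have hp' : ¬ q ∣ 2 := by
    intro h
    exact h2 ((Nat.prime_dvd_prime_iff_eq hq Nat.prime_two).1 h)
  intro h
  apply hp'
  rw [← ZMod.natCast_eq_zero_iff]
  exact_mod_cast h

theorem Sil.dual {a b : ℤ} {q : ℕ} (h : Sil a b q) : Sil (-2 * a) (a ^ 2 - 4 * b) q := by
  obtain ⟨h1, h2, h3, h4⟩ := h
  have := Fact.mk h1
  refine ⟨h1, h2, h4, ?_⟩
  rintro ⟨t, ht⟩
  apply h3
  have h5 := two_ne h1 h2
  have h6 : (4 : ZMod q) ≠ 0 := by
    have : (4 : ZMod q) = 2 * 2 := by norm_num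
    rw [this]
    exact mul_ne_zero h5 h5
  refine ⟨t / 4, ?_⟩
  push_cast at ht
  field_simp
  linear_combination ht

theorem Tr.dual {a b M : ℤ} (h : Tr (b * (a ^ 2 - 4 * b)) M) :
    Tr ((a ^ 2 - 4 * b) * ((-2 * a) ^ 2 - 4 * (a ^ 2 - 4 * b))) M := by
  obtain ⟨h1, h2, h3⟩ := h
  exact ⟨h1, h2, fun l hl hl2 hd => h3 l hl hl2 (dvd_dual hl hl2 hd)⟩

theorem dat {a b : ℤ} {P Q : Finset ℕ} (hb : b ≠ 0) (hc : a ^ 2 - 4 * b ≠ 0)
    (hP : ∀ p ∈ P, Spl a b p) (hQ : ∀ q ∈ Q, Sil a b q)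
    (hT : Tr (b * (a ^ 2 - 4 * b)) (∏ q ∈ Q, (q : ℤ))) :
    Dat a b P Q (rt a b) ∧ Dat (-2 * a) (a ^ 2 - 4 * b) P Q (rt a b) := by
  constructor
  · refine ⟨hb, hc, hP, hQ, hT, ?_⟩
    intro p hp
    have := Fact.mk (hP p hp).1
    obtain ⟨h1, h2, h3, h4⟩ := (hP p hp).sqb
    obtain ⟨e, he⟩ := exists_root (a := a) (b := b) (hP p hp).2.1 h2
    exact ⟨e, he, rt_iff h1 h3 he⟩
  · refine ⟨hc, ?_, fun p hp => (hP p hp).dual, fun q hq => (hQ q hq).dual, hT.dual, ?_⟩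
    · have : (-2 * a) ^ 2 - 4 * (a ^ 2 - 4 * b) = 16 * b := by ring
      rw [this]
      exact mul_ne_zero (by norm_num) hb
    · intro p hp
      have := Fact.mk (hP p hp).1
      obtain ⟨h1, h2, h3, h4⟩ := (hP p hp).sqb
      obtain ⟨k1, k2, k3, k4⟩ := (hP p hp).dual.sqb
      obtain ⟨e, he⟩ := exists_root (a := a) (b := b) (hP p hp).2.1 h2
      obtain ⟨e', he'⟩ := exists_root (a := -2 * a) (b := a ^ 2 - 4 * b) (hP p hp).2.1 k2
      refine ⟨e', he', ?_⟩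
      rw [rt_iff h1 h3 he]
      refine sym p (a : ZMod p) (b : ZMod p) e e' (hP p hp).2.1 h3 ?_ (hP p hp).2.2.2.1 h1 he ?_
      · push_cast at h4
        exact h4
      · push_cast at he'
        linear_combination he'

/-- the matrix of the twist -/
noncomputable def mat (a b : ℤ) (P Q : Finset ℕ) : Matrix P P (ZMod 2) := fun p r =>
  if p = r then rt a b p + ∑ s ∈ (P ∪ Q).erase (p : ℕ), nr p (s : ℤ) else nr p ((r : ℕ) : ℤ)

open Classical in
theorem mat_ind {a b : ℤ} {P Q V : Finset ℕ} (hV : V ⊆ P) (p : P) :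
    (mat a b P Q).mulVec (fun r : P => if (r : ℕ) ∈ V then (1 : ZMod 2) else 0) p =
      ∑ r ∈ V.erase (p : ℕ), nr p (r : ℤ) +
        (if (p : ℕ) ∈ V then dg P Q (rt a b) p else 0) := by
  have e1 : (mat a b P Q).mulVec (fun r : P => if (r : ℕ) ∈ V then (1 : ZMod 2) else 0) p =
      ∑ r ∈ P.attach, (fun r : ℕ => (if (p : ℕ) = r then dg P Q (rt a b) p else nr p (r : ℤ)) *
        (if r ∈ V then (1 : ZMod 2) else 0)) (r : ℕ) := by
    unfold Matrix.mulVec dotProduct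
    rw [Finset.univ_eq_attach]
    refine Finset.sum_congr rfl (fun r _ => ?_)
    unfold mat
    dsimp only
    by_cases hpr : p = r
    · subst hpr
      rw [if_pos rfl, if_pos rfl]
      rfl
    · rw [if_neg hpr]
      have : (p : ℕ) ≠ (r : ℕ) := fun h => hpr (Subtype.ext h)
      rw [if_neg this]
  rw [e1, Finset.sum_attach P (fun r : ℕ => (if (p : ℕ) = r then dg P Q (rt a b) p else
    nr p (r : ℤ)) * (if r ∈ V then (1 : ZMod 2) else 0))]
  have e2 : ∑ r ∈ P, (if (p : ℕ) = r then dg P Q (rt a b) p else nr p (r : ℤ)) *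
        (if r ∈ V then (1 : ZMod 2) else 0) =
      ∑ r ∈ V, (if (p : ℕ) = r then dg P Q (rt a b) p else nr p (r : ℤ)) := by
    rw [← Finset.sum_subset hV]
    · exact Finset.sum_congr rfl (fun r hr => by rw [if_pos hr, mul_one])
    · intro r _ hr
      rw [if_neg hr, mul_zero]
  rw [e2]
  by_cases hpV : (p : ℕ) ∈ V
  · rw [if_pos hpV, ← Finset.add_sum_erase V _ hpV, if_pos rfl, add_comm]
    congr 1
    refine Finset.sum_congr rfl (fun r hr => ?_)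
    rw [if_neg (Finset.ne_of_mem_erase hr).symm]
  · rw [if_neg hpV, Finset.erase_eq_of_notMem hpV, add_zero]
    refine Finset.sum_congr rfl (fun r hr => ?_)
    rw [if_neg]
    rintro rfl
    exact hpV hr

open Classical in
theorem card_Gd (a b : ℤ) (P Q : Finset ℕ) :
    (P.powerset.filter (Gd P Q (rt a b))).card = 2 ^ (P.card - (mat a b P Q).rank) := by
  let K := LinearMap.ker (mat a b P Q).mulVecLin
  have h1 : Nat.card K = 2 ^ (P.card - (mat a b P Q).rank) := by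
    have h2 := LinearMap.finrank_range_add_finrank_ker (mat a b P Q).mulVecLin
    have h3 : Nat.card K = Nat.card (ZMod 2) ^ Module.finrank (ZMod 2) K :=
      Module.natCard_eq_pow_finrank
    rw [h3, Nat.card_zmod]
    congr 1
    have h4 : (mat a b P Q).rank = Module.finrank (ZMod 2) (LinearMap.range (mat a b P Q).mulVecLin) :=
      rfl
    rw [h4]
    simp only [Module.finrank_fintype_fun_eq_card, Fintype.card_coe] at h2
    have h5 : Module.finrank (ZMod 2) K =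
      Module.finrank (ZMod 2) (LinearMap.ker (mat a b P Q).mulVecLin) := rfl
    omega
  rw [← h1, Nat.card_eq_fintype_card, ← Finset.card_univ]
  have hz : ∀ y : ZMod 2, y = 0 ∨ y = 1 := by decide
  refine Finset.card_bij (t := (Finset.univ : Finset K))
    (fun V hV => ⟨fun r : P => if (r : ℕ) ∈ V then (1 : ZMod 2) else 0, ?_⟩) ?_ ?_ ?_
  · rw [Finset.mem_filter, Finset.mem_powerset] at hV
    rw [LinearMap.mem_ker, Matrix.mulVecLin_apply]
    funext p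
    rw [mat_ind hV.1 p]
    exact hV.2 p p.2
  · intro V hV
    exact Finset.mem_univ _
  · intro V hV V' hV' heq
    rw [Finset.mem_filter, Finset.mem_powerset] at hV hV'
    have key : ∀ r ∈ P, (r ∈ V ↔ r ∈ V') := by
      intro r hr
      have h2 := congrFun (congrArg Subtype.val heq) ⟨r, hr⟩
      dsimp only at h2
      by_cases h3 : r ∈ V <;> by_cases h4 : r ∈ V'
      · exact iff_of_true h3 h4
      · rw [if_pos h3, if_neg h4] at h2
        exact absurd h2 (by decide)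
      · rw [if_neg h3, if_pos h4] at h2
        exact absurd h2 (by decide)
      · exact iff_of_false h3 h4
    ext r
    exact ⟨fun h => (key r (hV.1 h)).1 h, fun h => (key r (hV'.1 h)).2 h⟩
  · rintro ⟨x, hx⟩ -
    have hx' : (fun r : P => if (r : ℕ) ∈ P.filter (fun p => ∃ hp : p ∈ P, x ⟨p, hp⟩ = 1) then
        (1 : ZMod 2) else 0) = x := by
      funext r
      split_ifs with h2
      · obtain ⟨hp, h3⟩ := (Finset.mem_filter.1 h2).2
        exact h3.symm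
      · rcases hz (x r) with h3 | h3
        · exact h3.symm
        · exact absurd (Finset.mem_filter.2 ⟨r.2, r.2, h3⟩) h2
    refine ⟨P.filter (fun p => ∃ hp : p ∈ P, x ⟨p, hp⟩ = 1), ?_, Subtype.ext hx'⟩
    rw [Finset.mem_filter, Finset.mem_powerset]
    refine ⟨Finset.filter_subset _ _, ?_⟩
    intro p hp
    have h2 := mat_ind (a := a) (b := b) (Q := Q)
      (Finset.filter_subset (fun p => ∃ hp : p ∈ P, x ⟨p, hp⟩ = 1) P) ⟨p, hp⟩
    rw [hx'] at h2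
    have h3 : (mat a b P Q).mulVec x = 0 := by
      have := LinearMap.mem_ker.1 hx
      rwa [Matrix.mulVecLin_apply] at this
    rw [h3] at h2
    exact h2.symm

/-- the two numbers of the classes for a twist -/
theorem main {a b : ℤ} {P Q : Finset ℕ} (hb : b ≠ 0) (hc : a ^ 2 - 4 * b ≠ 0)
    (hP : ∀ p ∈ P, Spl a b p) (hQ : ∀ q ∈ Q, Sil a b q)
    (hT : Tr (b * (a ^ 2 - 4 * b)) (∏ q ∈ Q, (q : ℤ))) :
    (CL (a * ∏ r ∈ P ∪ Q, (r : ℤ)) (b * (∏ r ∈ P ∪ Q, (r : ℤ)) ^ 2)).ncard =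
      (CL a b).ncard * 2 ^ (P.card - (mat a b P Q).rank) ∧
    (CL (-2 * (a * ∏ r ∈ P ∪ Q, (r : ℤ))) ((a * ∏ r ∈ P ∪ Q, (r : ℤ)) ^ 2 -
        4 * (b * (∏ r ∈ P ∪ Q, (r : ℤ)) ^ 2))).ncard =
      (CL (-2 * a) (a ^ 2 - 4 * b)).ncard * 2 ^ (P.card - (mat a b P Q).rank) := by
  obtain ⟨h1, h2⟩ := dat hb hc hP hQ hT
  constructor
  · rw [h1.card, card_Gd]
  · have e1 : -2 * (a * ∏ r ∈ P ∪ Q, (r : ℤ)) = -2 * a * ∏ r ∈ P ∪ Q, (r : ℤ) := by ring
    have e2 : (a * ∏ r ∈ P ∪ Q, (r : ℤ)) ^ 2 - 4 * (b * (∏ r ∈ P ∪ Q, (r : ℤ)) ^ 2) =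
      (a ^ 2 - 4 * b) * (∏ r ∈ P ∪ Q, (r : ℤ)) ^ 2 := by ring
    rw [e1, e2, h2.card, card_Gd]

end Pool.Agent.H68.A
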