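import Pool.Agent.H68.A.Loc
import Pool.Agent.H68.L.R_pool_sql_team_seeded_b0a926ef.R413.TI.Good
import Pool.Agent.H68.L.R_pool_sql_team_seeded_b0a926ef.R413.TI.SplG
import Pool.Agent.H68.L.R_pool_sql_team_seeded_b0a926ef.R413.TI.Sq

/-!
# The classes over the `p`-adic numbers
-/

set_option autoImplicit false

namespace Pool.Agent.H68.A

open Pool.Agent.R413.TI

section
variable {p : ℕ} [hp : Fact p.Prime]

theorem val_add_left {x y : ℚ_[p]} (hx : x ≠ 0) (h : y = 0 ∨ x.valuation < y.valuation) :
    x + y ≠ 0 ∧ (x + y).valuation = x.valuation := by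
  rcases eq_or_ne y 0 with rfl | hy
  · simpa using hx
  have h := h.resolve_left hy
  have hn : ‖y‖ < ‖x‖ := by
    rw [Padic.norm_eq_zpow_neg_valuation hx, Padic.norm_eq_zpow_neg_valuation hy]
    exact zpow_lt_zpow_right₀ (by exact_mod_cast hp.out.one_lt) (by omega)
  have e : ‖x + y‖ = ‖x‖ := by
    rw [Padic.add_eq_max_of_ne hn.ne', max_eq_left hn.le]
  have h0 : x + y ≠ 0 := by
    intro h0
    rw [h0, norm_zero] at e
    exact hx (norm_eq_zero.1 e.symm)
  refine ⟨h0, ?_⟩
  rw [Padic.norm_eq_zpow_neg_valuation hx, Padic.norm_eq_zpow_neg_valuation h0] at e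
  have := zpow_right_injective₀ (by exact_mod_cast hp.out.pos : (0 : ℝ) < p)
    (by exact_mod_cast hp.out.one_lt.ne') e
  omega

theorem even_val_of_sq {x : ℚ_[p]} (h : IsSquare x) : Even x.valuation := by
  obtain ⟨r, rfl⟩ := h
  rcases eq_or_ne r 0 with rfl | hr
  · simp
  · rw [Padic.valuation_mul hr hr]
    exact ⟨_, rfl⟩

theorem val_int_nonneg (n : ℤ) : 0 ≤ (n : ℚ_[p]).valuation := by
  rw [Padic.valuation_intCast]
  positivity

theorem val_unit {n : ℤ} (h : ¬ (p : ℤ) ∣ n) : (n : ℚ_[p]).valuation = 0 := by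
  rw [Padic.valuation_intCast, padicValInt.eq_zero_of_not_dvd h]
  rfl

theorem val_one {n : ℤ} (h : (p : ℤ) ∣ n) (h2 : Squarefree n) : (n : ℚ_[p]).valuation = 1 := by
  have hpi : Prime (p : ℤ) := Nat.prime_iff_prime_int.1 hp.out
  obtain ⟨m, rfl⟩ := h
  have hm : ¬ (p : ℤ) ∣ m := by
    intro hm
    obtain ⟨k, rfl⟩ := hm
    have := h2 p ⟨k, by ring⟩
    exact hpi.not_isUnit this
  have hm0 : (m : ℚ_[p]) ≠ 0 := by
    intro h
    have : m = 0 := by exact_mod_cast h
    exact hm (this ▸ dvd_zero _)
  have hp0 : (p : ℚ_[p]) ≠ 0 := by exact_mod_cast hp.out.ne_zero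
  push_cast
  rw [Padic.valuation_mul hp0 hm0, Padic.valuation_p, val_unit hm]
  rfl

/-- a class with odd valuation at `p`: `p` divides `b` -/
theorem dvd_of_W {a b z : ℤ} (hz : (p : ℤ) ∣ z) (hsq : Squarefree z) (hb0 : b ≠ 0)
    (h : W ℚ_[p] a b z) : (p : ℤ) ∣ b := by
  by_contra hb
  have hb' : (b : ℚ_[p]) ≠ 0 := by exact_mod_cast hb0
  have hz' : (z : ℚ_[p]) ≠ 0 := by exact_mod_cast hsq.ne_zero
  have vz := val_one hz hsq
  have vb := val_unit (p := p) hb
  rcases (W_iff hb' hz').1 h with h1 | h1 | ⟨x, y, w, hx, hy, hw⟩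
  · have := even_val_of_sq h1
    rw [vz] at this
    exact absurd this (by decide)
  · have := even_val_of_sq h1
    rw [Padic.valuation_mul hb' hz', vz, vb] at this
    exact absurd this (by decide)
  · have hzx : Even (1 + x.valuation) := by
      have := even_val_of_sq (p := p) (x := (z : ℚ_[p]) * x) ⟨w, by rw [hw]; ring⟩
      rwa [Padic.valuation_mul hz' hx, vz] at this
    have key : x ^ 2 + a * x + b ≠ 0 ∧ Even (x ^ 2 + a * x + b).valuation := by
      rcases lt_or_ge x.valuation 0 with h2 | h2
      · have h3 : (a : ℚ_[p]) * x + b = 0 ∨ (x ^ 2).valuation < ((a : ℚ_[p]) * x + b).valuation := by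
          by_cases h0 : (a : ℚ_[p]) * x + b = 0
          · exact Or.inl h0
          · right
            rw [Padic.valuation_pow]
            rcases eq_or_ne (a : ℚ_[p]) 0 with ha | ha
            · rw [ha, zero_mul, zero_add, vb]
              push_cast
              omega
            · have := Padic.le_valuation_add h0
              rw [Padic.valuation_mul ha hx, vb] at this
              have h5 := val_int_nonneg (p := p) a
              push_cast
              omega
        obtain ⟨h4, h5⟩ := val_add_left (pow_ne_zero 2 hx) h3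
        rw [← add_assoc] at h4 h5
        refine ⟨h4, ?_⟩
        rw [h5, Padic.valuation_pow]
        exact ⟨x.valuation, by push_cast; ring⟩
      · have h3 : x ^ 2 + (a : ℚ_[p]) * x = 0 ∨
            ((b : ℤ) : ℚ_[p]).valuation < (x ^ 2 + (a : ℚ_[p]) * x).valuation := by
          by_cases h0 : x ^ 2 + (a : ℚ_[p]) * x = 0
          · exact Or.inl h0
          · right
            have hx1 : 1 ≤ x.valuation := by
              rcases h2.lt_or_eq with h6 | h6
              · omega
              · rw [← h6] at hzx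
                exact absurd hzx (by decide)
            have h6 : x ^ 2 + (a : ℚ_[p]) * x = x * (x + a) := by ring
            have h7 : x + (a : ℚ_[p]) ≠ 0 := by
              intro h
              apply h0
              rw [h6, h, mul_zero]
            rw [h6, Padic.valuation_mul hx h7, vb]
            rcases eq_or_ne (a : ℚ_[p]) 0 with ha | ha
            · rw [ha, add_zero]
              omega
            · have := Padic.le_valuation_add h7
              have h5 := val_int_nonneg (p := p) a
              omega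
        obtain ⟨h4, h5⟩ := val_add_left hb' h3
        have e : ((b : ℤ) : ℚ_[p]) + (x ^ 2 + (a : ℚ_[p]) * x) = x ^ 2 + a * x + b := by ring
        rw [e] at h4 h5
        refine ⟨h4, ?_⟩
        rw [h5, vb]
        decide
    have h8 := even_val_of_sq (p := p) (x := x * (x ^ 2 + a * x + b)) ⟨y, by rw [← hy]; ring⟩
    rw [Padic.valuation_mul hx key.1] at h8
    have h9 := key.2
    rw [Int.even_iff] at hzx h8 h9
    omega

theorem not_dvd_of_not_sq {b : ℤ} (hb : ¬ IsSquare (b : ZMod p)) : ¬ (p : ℤ) ∣ b := by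
  intro h
  apply hb
  rw [(ZMod.intCast_zmod_eq_zero_iff_dvd b p).2 h]
  exact ⟨0, by ring⟩

theorem mul_nonsq {x y : ZMod p} (hx : ¬ IsSquare x) (hy : ¬ IsSquare y) : IsSquare (x * y) := by
  have hx0 : x ≠ 0 := by
    rintro rfl
    exact hx ⟨0, by ring⟩
  have hy0 : y ≠ 0 := by
    rintro rfl
    exact hy ⟨0, by ring⟩
  rw [← quadraticChar_one_iff_isSquare (mul_ne_zero hx0 hy0), map_mul,
    quadraticChar_neg_one_iff_not_isSquare.2 hx, quadraticChar_neg_one_iff_not_isSquare.2 hy]
  norm_num

theorem val_zero_unit {x : ℚ_[p]} (h0 : x ≠ 0) (h : x.valuation = 0) :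
    ∃ t : ℤ_[p], (t : ℚ_[p]) = x ∧ PadicInt.toZMod t ≠ 0 := by
  have hn : ‖x‖ = 1 := by
    rw [Padic.norm_eq_zpow_neg_valuation h0, h]
    norm_num
  obtain ⟨t, ht⟩ : ∃ t : ℤ_[p], (t : ℚ_[p]) = x := ⟨⟨x, hn.le⟩, rfl⟩
  refine ⟨t, ht, ?_⟩
  intro h1
  have h2 : t ∈ RingHom.ker (PadicInt.toZMod (p := p)) := h1
  rw [PadicInt.ker_toZMod, PadicInt.maximalIdeal_eq_span_p, Ideal.mem_span_singleton,
    ← PadicInt.norm_lt_one_iff_dvd] at h2
  have h3 : ‖t‖ = ‖x‖ := by rw [← ht]; rfl
  rw [h3, hn] at h2
  exact lt_irrefl _ h2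

theorem val_of_toZMod {t : ℤ_[p]} (h : PadicInt.toZMod t ≠ 0) :
    (t : ℚ_[p]) ≠ 0 ∧ (t : ℚ_[p]).valuation = 0 := by
  have hn : ‖(t : ℚ_[p])‖ = 1 := by
    refine le_antisymm (PadicInt.norm_le_one t) ?_
    by_contra hlt
    apply h
    have h2 : t ∈ RingHom.ker (PadicInt.toZMod (p := p)) := by
      rw [PadicInt.ker_toZMod, PadicInt.maximalIdeal_eq_span_p, Ideal.mem_span_singleton,
        ← PadicInt.norm_lt_one_iff_dvd]
      exact not_le.1 hlt
    exact h2
  have h0 : (t : ℚ_[p]) ≠ 0 := by
    intro h0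
    rw [h0, norm_zero] at hn
    exact zero_ne_one hn
  refine ⟨h0, ?_⟩
  rw [Padic.norm_eq_zpow_neg_valuation h0] at hn
  have h1 : ((p : ℝ)) ^ (-(t : ℚ_[p]).valuation) = (p : ℝ) ^ (0 : ℤ) := by rw [hn, zpow_zero]
  have := zpow_right_injective₀ (by exact_mod_cast hp.out.pos : (0 : ℝ) < p)
    (by exact_mod_cast hp.out.one_lt.ne') h1
  omega

/-- a silent prime divides the twisting number: the local condition is that the class is prime
to it -/
theorem W_silent {a b D' z : ℤ} (hp2 : p ≠ 2) (hb : ¬ IsSquare (b : ZMod p))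
    (hc : ¬ IsSquare ((a ^ 2 - 4 * b : ℤ) : ZMod p)) (hD' : ¬ (p : ℤ) ∣ D') (hz : Squarefree z) :
    W ℚ_[p] ((a * (p * D') : ℤ) : ℚ_[p]) ((b * (p * D') ^ 2 : ℤ) : ℚ_[p]) z ↔ ¬ (p : ℤ) ∣ z := by
  have hpb := not_dvd_of_not_sq hb
  have hb0 : b ≠ 0 := by
    rintro rfl
    exact hpb (dvd_zero _)
  have hD'0 : D' ≠ 0 := by
    rintro rfl
    exact hD' (dvd_zero _)
  have hp0 : (p : ℚ_[p]) ≠ 0 := by exact_mod_cast hp.out.ne_zero
  have hz' : (z : ℚ_[p]) ≠ 0 := by exact_mod_cast hz.ne_zero
  have hb' : (b : ℚ_[p]) ≠ 0 := by exact_mod_cast hb0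
  have hDp : (D' : ℚ_[p]) ≠ 0 := by exact_mod_cast hD'0
  obtain ⟨D, hD⟩ : ∃ D : ℚ_[p], D = p * D' := ⟨_, rfl⟩
  have hD0 : D ≠ 0 := by rw [hD]; exact mul_ne_zero hp0 hDp
  have vD : D.valuation = 1 := by
    rw [hD, Padic.valuation_mul hp0 hDp, Padic.valuation_p, val_unit hD']
    rfl
  have e1 : ((a * (p * D') : ℤ) : ℚ_[p]) = a * D := by rw [hD]; push_cast; ring
  have e2 : ((b * (p * D') ^ 2 : ℤ) : ℚ_[p]) = b * D ^ 2 := by rw [hD]; push_cast; ring
  have hbD : (b : ℚ_[p]) * D ^ 2 ≠ 0 := mul_ne_zero hb' (pow_ne_zero 2 hD0)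
  have vb := val_unit (p := p) hpb
  have vbD : ((b : ℚ_[p]) * D ^ 2).valuation = 2 := by
    rw [Padic.valuation_mul hb' (pow_ne_zero 2 hD0), vb, Padic.valuation_pow, vD]
    rfl
  rw [e1, e2]
  constructor
  · intro h hpz
    have vz := val_one hpz hz
    rcases (W_iff hbD hz').1 h with h1 | h1 | ⟨x, y, w, hx, hy, hw⟩
    · have := even_val_of_sq h1
      rw [vz] at this
      exact absurd this (by decide)
    · have := even_val_of_sq h1
      rw [Padic.valuation_mul hbD hz', vz, vbD] at this
      exact absurd this (by decide)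
    · have hzx : Even (1 + x.valuation) := by
        have := even_val_of_sq (p := p) (x := (z : ℚ_[p]) * x) ⟨w, by rw [hw]; ring⟩
        rwa [Padic.valuation_mul hz' hx, vz] at this
      have key : x ^ 2 + a * D * x + b * D ^ 2 ≠ 0 ∧
          Even (x ^ 2 + a * D * x + b * D ^ 2).valuation := by
        rcases lt_trichotomy x.valuation 1 with h2 | h2 | h2
        · have h3 : (a : ℚ_[p]) * D * x + b * D ^ 2 = 0 ∨
              (x ^ 2).valuation < ((a : ℚ_[p]) * D * x + b * D ^ 2).valuation := by
            by_cases h0 : (a : ℚ_[p]) * D * x + b * D ^ 2 = 0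
            · exact Or.inl h0
            · right
              rw [Padic.valuation_pow]
              rcases eq_or_ne (a : ℚ_[p]) 0 with ha | ha
              · rw [ha, zero_mul, zero_mul, zero_add, vbD]
                push_cast
                omega
              · have := Padic.le_valuation_add h0
                rw [Padic.valuation_mul (mul_ne_zero ha hD0) hx, Padic.valuation_mul ha hD0, vbD,
                  vD] at this
                have h5 := val_int_nonneg (p := p) a
                push_cast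
                omega
          obtain ⟨h4, h5⟩ := val_add_left (pow_ne_zero 2 hx) h3
          rw [← add_assoc] at h4 h5
          refine ⟨h4, ?_⟩
          rw [h5, Padic.valuation_pow]
          exact ⟨x.valuation, by push_cast; ring⟩
        · have ht0 : x / D ≠ 0 := div_ne_zero hx hD0
          have hxt : x = x / D * D := by field_simp
          have vt : (x / D).valuation = 0 := by
            have := congrArg Padic.valuation hxt
            rw [Padic.valuation_mul ht0 hD0, vD, h2] at this
            omega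
          obtain ⟨t, ht, ht1⟩ := val_zero_unit ht0 vt
          have hr : PadicInt.toZMod (t ^ 2 + (a : ℤ_[p]) * t + (b : ℤ_[p])) ≠ 0 := by
            intro hr
            apply hc
            refine ⟨2 * PadicInt.toZMod t + a, ?_⟩
            rw [map_add, map_add, map_mul, map_pow, map_intCast, map_intCast] at hr
            push_cast
            linear_combination (-4 : ZMod p) * hr
          obtain ⟨h6, h7⟩ := val_of_toZMod hr
          have e3 : x ^ 2 + a * D * x + b * D ^ 2 = ((t ^ 2 + (a : ℤ_[p]) * t + (b : ℤ_[p]) : ℤ_[p]) : ℚ_[p]) * D ^ 2 := by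
            push_cast
            rw [ht]
            field_simp
          rw [e3]
          refine ⟨mul_ne_zero h6 (pow_ne_zero 2 hD0), ?_⟩
          rw [Padic.valuation_mul h6 (pow_ne_zero 2 hD0), h7, Padic.valuation_pow, vD]
          decide
        · have h3 : x ^ 2 + (a : ℚ_[p]) * D * x = 0 ∨
              ((b : ℚ_[p]) * D ^ 2).valuation < (x ^ 2 + (a : ℚ_[p]) * D * x).valuation := by
            by_cases h0 : x ^ 2 + (a : ℚ_[p]) * D * x = 0
            · exact Or.inl h0
            · right
              have h6 : x ^ 2 + (a : ℚ_[p]) * D * x = x * (x + a * D) := by ring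
              have h7 : x + (a : ℚ_[p]) * D ≠ 0 := by
                intro h
                apply h0
                rw [h6, h, mul_zero]
              rw [h6, Padic.valuation_mul hx h7, vbD]
              rcases eq_or_ne (a : ℚ_[p]) 0 with ha | ha
              · rw [ha, zero_mul, add_zero]
                omega
              · have := Padic.le_valuation_add h7
                rw [Padic.valuation_mul ha hD0, vD] at this
                have h5 := val_int_nonneg (p := p) a
                omega
          obtain ⟨h4, h5⟩ := val_add_left hbD h3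
          have e : (b : ℚ_[p]) * D ^ 2 + (x ^ 2 + (a : ℚ_[p]) * D * x) =
              x ^ 2 + a * D * x + b * D ^ 2 := by ring
          rw [e] at h4 h5
          refine ⟨h4, ?_⟩
          rw [h5, vbD]
          decide
      have h8 := even_val_of_sq (p := p) (x := x * (x ^ 2 + a * D * x + b * D ^ 2))
        ⟨y, by rw [← hy]; ring⟩
      rw [Padic.valuation_mul hx key.1] at h8
      have h9 := key.2
      rw [Int.even_iff] at hzx h8 h9
      omega
  · intro hpz
    by_cases hs : IsSquare (z : ZMod p)
    · exact W_sq hbD hz' (padic_sq hp2 hpz hs)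
    · have h1 : IsSquare ((b * z : ℤ) : ZMod p) := by
        push_cast
        exact mul_nonsq hb hs
      have hpi : Prime (p : ℤ) := Nat.prime_iff_prime_int.1 hp.out
      have h2 := padic_sq hp2 (fun h => (hpi.dvd_or_dvd h).elim hpb hpz) h1
      refine (W_iff hbD hz').2 (Or.inr (Or.inl ?_))
      obtain ⟨r, hr⟩ := h2
      refine ⟨r * D, ?_⟩
      push_cast at hr
      linear_combination D ^ 2 * hr

end
end Pool.Agent.H68.A
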