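import Pool.Agent.H68.A.Cls

/-!
# The local conditions for a twist
-/

set_option autoImplicit false

namespace Pool.Agent.H68.A

open Pool.Agent.R413.TI

/-- the twist by a square -/
theorem W_tw {K : Type} [Field K] {a b D z : K} (hb : b ≠ 0) (hz : z ≠ 0) (hD : D ≠ 0)
    (h : IsSquare D) : W K (a * D) (b * D ^ 2) z ↔ W K a b z := by
  obtain ⟨t, rfl⟩ := h
  have ht : t ≠ 0 := by
    rintro rfl
    exact hD (by ring)
  have := W_twist (K := K) (a := a) (b := b) (z := z) hb hz ht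
  rwa [show a * (t * t) = a * t ^ 2 by ring, show b * (t * t) ^ 2 = b * t ^ 4 by ring]

theorem W_real {a b D z : ℤ} (hb : b ≠ 0) (hz : z ≠ 0) (hD : 0 < D) :
    W ℝ ((a * D : ℤ) : ℝ) ((b * D ^ 2 : ℤ) : ℝ) z ↔ W ℝ (a : ℝ) (b : ℝ) z := by
  have h0 : (0 : ℝ) < D := by exact_mod_cast hD
  push_cast
  exact W_tw (by exact_mod_cast hb) (by exact_mod_cast hz) h0.ne' ⟨√(D : ℝ), (Real.mul_self_sqrt h0.le).symm⟩

theorem W_two {a b D z : ℤ} (hb : b ≠ 0) (hz : z ≠ 0) (hD : D % 8 = 1) :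
    W ℚ_[2] ((a * D : ℤ) : ℚ_[2]) ((b * D ^ 2 : ℤ) : ℚ_[2]) z ↔
      W ℚ_[2] (a : ℚ_[2]) (b : ℚ_[2]) z := by
  have h0 : D ≠ 0 := by
    rintro rfl
    norm_num at hD
  push_cast
  exact W_tw (by exact_mod_cast hb) (by exact_mod_cast hz) (by exact_mod_cast h0) (padic_sq2 hD)

theorem W_odd {l : ℕ} [Fact l.Prime] {a b D z : ℤ} (hl : l ≠ 2) (hb : b ≠ 0) (hz : z ≠ 0)
    (hD : ¬ (l : ℤ) ∣ D) (h : IsSquare (D : ZMod l)) :
    W ℚ_[l] ((a * D : ℤ) : ℚ_[l]) ((b * D ^ 2 : ℤ) : ℚ_[l]) z ↔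
      W ℚ_[l] (a : ℚ_[l]) (b : ℚ_[l]) z := by
  have h0 : D ≠ 0 := by
    rintro rfl
    exact hD (dvd_zero _)
  push_cast
  exact W_tw (by exact_mod_cast hb) (by exact_mod_cast hz) (by exact_mod_cast h0)
    (padic_sq hl hD h)

/-- units are classes at the good primes -/
theorem W_good {l : ℕ} [Fact l.Prime] {a b z : ℤ} (hl : l ≠ 2) (hb : ¬ (l : ℤ) ∣ b)
    (hc : ¬ (l : ℤ) ∣ a ^ 2 - 4 * b) (hz : ¬ (l : ℤ) ∣ z) :
    W ℚ_[l] (a : ℚ_[l]) (b : ℚ_[l]) z := by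
  have hpi : Prime (l : ℤ) := Nat.prime_iff_prime_int.1 (Fact.out)
  have hz0 : z ≠ 0 := by
    rintro rfl
    exact hz (dvd_zero _)
  have hb0 : b ≠ 0 := by
    rintro rfl
    exact hb (dvd_zero _)
  have hzq : (z : ℚ_[l]) ≠ 0 := by exact_mod_cast hz0
  have hbq : (b : ℚ_[l]) ≠ 0 := by exact_mod_cast hb0
  have h1 := good l (a * z ^ 2) z (b * z ^ 3) hl hz
    (fun h => (hpi.dvd_or_dvd h).elim hb (fun h => hz (hpi.dvd_of_dvd_pow h)))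
    (by
      have e : (a * z ^ 2) ^ 2 - 4 * z * (b * z ^ 3) = (a ^ 2 - 4 * b) * z ^ 4 := by ring
      rw [e]
      exact fun h => (hpi.dvd_or_dvd h).elim hc (fun h => hz (hpi.dvd_of_dvd_pow h)))
  have h2 : W ℚ_[l] ((a * z ^ 2 : ℤ) : ℚ_[l]) ((b * z ^ 4 : ℤ) : ℚ_[l]) z := by
    have e : (b * z ^ 3 : ℤ) = (b * z ^ 4) / z := by
      rw [show b * z ^ 4 = b * z ^ 3 * z by ring, Int.mul_ediv_cancel _ hz0]
    rw [e] at h1
    exact (Sol_iff_W hz0 ⟨b * z ^ 3, by ring⟩).1 h1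
  push_cast at h2
  exact (W_twist hbq hzq hzq).1 h2

/-- the condition at a split prime dividing the twisting number -/
theorem W_split {p : ℕ} [Fact p.Prime] {a b D' z : ℤ} {e : ZMod p} (hp : p ≠ 2)
    (hb : ¬ (p : ℤ) ∣ b) (hc : ¬ (p : ℤ) ∣ a ^ 2 - 4 * b) (hbs : IsSquare ((b : ℤ) : ZMod p))
    (he : e ^ 2 + (a : ZMod p) * e + (b : ZMod p) = 0) (hD' : ¬ (p : ℤ) ∣ D')
    (hz : Squarefree z) (hzd : z ∣ b * (p * D') ^ 2) :
    (¬ (p : ℤ) ∣ z → (W ℚ_[p] ((a * (p * D') : ℤ) : ℚ_[p]) ((b * (p * D') ^ 2 : ℤ) : ℚ_[p]) z ↔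
      IsSquare (z : ZMod p))) ∧
    (∀ c : ℤ, z = p * c → (W ℚ_[p] ((a * (p * D') : ℤ) : ℚ_[p])
      ((b * (p * D') ^ 2 : ℤ) : ℚ_[p]) z ↔ IsSquare ((c : ZMod p) * (D' : ZMod p) * e))) := by
  have hz0 := hz.ne_zero
  obtain ⟨h1, h2⟩ := splg p a b (p * D') D' z (b * (p * D') ^ 2 / z) e hp hb hc hbs he rfl hD' hz
    (Int.mul_ediv_cancel' hzd)
  constructor
  · intro h
    rw [← Sol_iff_W hz0 hzd]
    exact h1 h
  · intro c h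
    rw [← Sol_iff_W hz0 hzd]
    exact h2 c h

end Pool.Agent.H68.A
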